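import Mathlib

set_option autoImplicit false
set_option linter.unusedVariables false

open Filter

namespace Pool.Agent.R603.AQ

/-- The `(n+1)`-ary operations on `α`. -/
abbrev Op (α : Type) (n : ℕ) : Type := (Fin (n + 1) → α) → α

/-- polymorphisms of `(ℚ; <)` -/
def IsPol {n : ℕ} (f : Op ℚ n) : Prop := ∀ a b : Fin (n + 1) → ℚ, (∀ i, a i < b i) → f a < f b

/-- the facts used about a clone isomorphism from the polymorphism clone of `(ℚ; <)` onto a closed
clone. -/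
structure Setup (D : ∀ n, Set (Op ℕ n)) (X : ∀ n, Op ℚ n → Op ℕ n) : Prop where
  closedD : ∀ n, IsClosed (D n)
  mem : ∀ n f, IsPol f → X n f ∈ D n
  inj : ∀ n f g, IsPol f → IsPol g → X n f = X n g → f = g
  surj : ∀ n g, g ∈ D n → ∃ f, IsPol f ∧ X n f = g
  proj : ∀ n i, X n (fun x => x i) = fun x => x i
  comp : ∀ n m (f : Op ℚ n) (g : Fin (n + 1) → Op ℚ m), IsPol f → (∀ i, IsPol (g i)) →
    X m (fun x => f (fun i => g i x)) = fun x => X n f (fun i => X m (g i) x)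

/-- a unary function as a unary operation -/
def un (u : ℚ → ℚ) : Op ℚ 0 := fun x => u (x 0)

/-- a unary operation as a function -/
def dn {α : Type} (p : Op α 0) : α → α := fun a => p (fun _ => a)

lemma un_dn (p : Op ℚ 0) : un (dn p) = p := by
  funext x
  show p (fun _ => x 0) = p x
  congr 1
  funext i
  rw [show i = 0 from Subsingleton.elim (α := Fin 1) i 0]

lemma isPol_un {u : ℚ → ℚ} (hu : StrictMono u) : IsPol (un u) := fun _ _ h => hu (h 0)

lemma strictMono_dn {f : Op ℚ 0} (hf : IsPol f) : StrictMono (dn f) := fun _ _ h =>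
  hf _ _ fun _ => h

/-- the action of a unary function through the isomorphism -/
def A (X : ∀ n, Op ℚ n → Op ℕ n) (u : ℚ → ℚ) : ℕ → ℕ := dn (X 0 (un u))

/-- members of closed sets of functions to `ℕ` by finite approximation. -/
lemma closed_approx {ι : Type*} {S : Set (ι → ℕ)} (hS : IsClosed S) (f : ι → ℕ)
    (h : ∀ T : Finset ι, ∃ g ∈ S, ∀ t ∈ T, g t = f t) : f ∈ S := by
  rw [← hS.closure_eq, mem_closure_iff]
  intro o ho hf
  obtain ⟨I, u, hI, hsub⟩ := isOpen_pi_iff.1 ho f hf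
  obtain ⟨g, hg, hgf⟩ := h I
  refine ⟨g, hsub ?_, hg⟩
  intro i hi
  rw [hgf i hi]
  exact (hI i hi).2

namespace Setup

variable {D : ∀ n, Set (Op ℕ n)} {X : ∀ n, Op ℚ n → Op ℕ n}

lemma A_comp (S : Setup D X) {u v : ℚ → ℚ} (hu : StrictMono u) (hv : StrictMono v) (y : ℕ) :
    A X (u ∘ v) y = A X u (A X v y) := by
  have h := S.comp 0 0 (un u) (fun _ => un v) (isPol_un hu) (fun _ => isPol_un hv)
  have h2 := congrFun h (fun _ => y)
  exact h2

lemma A_id (S : Setup D X) (y : ℕ) : A X id y = y := by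
  have h := S.proj 0 0
  exact congrFun h (fun _ => y)

lemma A_inj (S : Setup D X) {u v : ℚ → ℚ} (hu : StrictMono u) (hv : StrictMono v)
    (h : ∀ y, A X u y = A X v y) : u = v := by
  have h1 : X 0 (un u) = X 0 (un v) := by
    funext x
    have h2 := h (x 0)
    have h3 : (fun _ => x 0) = x := by
      funext i
      rw [show i = 0 from Subsingleton.elim (α := Fin 1) i 0]
    have h4 : X 0 (un u) (fun _ => x 0) = X 0 (un v) (fun _ => x 0) := h2
    rwa [h3] at h4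
  have h2 := S.inj 0 _ _ (isPol_un hu) (isPol_un hv) h1
  exact congrArg dn h2

/-- pointwise limits (in the target) of images of unary members are images. -/
lemma A_limit (S : Setup D X) (p : ℕ → ℕ)
    (h : ∀ T : Finset ℕ, ∃ v : ℚ → ℚ, StrictMono v ∧ ∀ y ∈ T, A X v y = p y) :
    ∃ e : ℚ → ℚ, StrictMono e ∧ A X e = p := by
  classical
  have hD : (fun x : Fin 1 → ℕ => p (x 0)) ∈ D 0 := by
    refine closed_approx (S.closedD 0) _ fun T => ?_
    obtain ⟨v, hv, hvp⟩ := h (T.image fun x => x 0)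
    refine ⟨X 0 (un v), S.mem 0 _ (isPol_un hv), fun t ht => ?_⟩
    have h1 := hvp (t 0) (Finset.mem_image_of_mem _ ht)
    rw [← h1]
    show X 0 (un v) t = X 0 (un v) (fun _ => t 0)
    congr 1
    funext i
    rw [show i = 0 from Subsingleton.elim (α := Fin 1) i 0]
  obtain ⟨f, hf, hfp⟩ := S.surj 0 _ hD
  refine ⟨dn f, strictMono_dn hf, ?_⟩
  funext y
  rw [A, un_dn, hfp]
  rfl

lemma isPol_coord {n : ℕ} {v : ℚ → ℚ} (hv : StrictMono v) (i : Fin (n + 1)) :
    IsPol (fun t : Fin (n + 1) → ℚ => v (t i)) := fun _ _ h => hv (h i)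

lemma X_coord (S : Setup D X) {n : ℕ} {v : ℚ → ℚ} (hv : StrictMono v) (i : Fin (n + 1)) :
    X n (fun t : Fin (n + 1) → ℚ => v (t i)) = fun y => A X v (y i) := by
  have h := S.comp 0 n (un v) (fun _ => fun t => t i) (isPol_un hv) (fun _ _ _ h => h i)
  rw [S.proj n i] at h
  exact h

lemma isPol_subst {n : ℕ} {f : Op ℚ n} (hf : IsPol f)
    {v : Fin (n + 1) → ℚ → ℚ} (hv : ∀ i, StrictMono (v i)) :
    IsPol (fun t => f (fun i => v i (t i))) := fun _ _ h => hf _ _ fun i => hv i (h i)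

lemma X_subst (S : Setup D X) {n : ℕ} {f : Op ℚ n} (hf : IsPol f)
    {v : Fin (n + 1) → ℚ → ℚ} (hv : ∀ i, StrictMono (v i)) (y : Fin (n + 1) → ℕ) :
    X n (fun t => f (fun i => v i (t i))) y = X n f (fun i => A X (v i) (y i)) := by
  have h := S.comp n n f (fun i t => v i (t i)) hf (fun i => isPol_coord (hv i) i)
  rw [h]
  show X n f _ = _
  congr 1
  funext i
  rw [S.X_coord (hv i) i]

lemma strictMono_diag {n : ℕ} {f : Op ℚ n} (hf : IsPol f)
    {v : Fin (n + 1) → ℚ → ℚ} (hv : ∀ i, StrictMono (v i)) :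
    StrictMono (fun a => f (fun i => v i a)) := fun _ _ h => hf _ _ fun i => hv i h

lemma A_diag (S : Setup D X) {n : ℕ} {f : Op ℚ n} (hf : IsPol f)
    {v : Fin (n + 1) → ℚ → ℚ} (hv : ∀ i, StrictMono (v i)) (y : ℕ) :
    A X (fun a => f (fun i => v i a)) y = X n f (fun i => A X (v i) y) := by
  have h := S.comp n 0 f (fun i => un (v i)) hf fun i => isPol_un (hv i)
  exact congrFun h (fun _ => y)

lemma isPol_post {n : ℕ} {f : Op ℚ n} (hf : IsPol f) {u : ℚ → ℚ} (hu : StrictMono u) :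
    IsPol (fun t => u (f t)) := fun _ _ h => hu (hf _ _ h)

lemma X_post (S : Setup D X) {n : ℕ} {f : Op ℚ n} (hf : IsPol f)
    {u : ℚ → ℚ} (hu : StrictMono u) (y : Fin (n + 1) → ℕ) :
    X n (fun t => u (f t)) y = A X u (X n f y) := by
  have h := S.comp 0 n (un u) (fun _ => f) (isPol_un hu) (fun _ => hf)
  have h2 := congrFun h y
  exact h2

end Setup

/-! ### Linear orders -/

/-- every strictly monotone map on a finite set extends to an embedding. -/
lemma ext_fin (G : Finset ℚ) (u : ℚ → ℚ) (hu : ∀ a ∈ G, ∀ b ∈ G, a < b → u a < u b) :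
    ∃ π : ℚ → ℚ, StrictMono π ∧ ∀ g ∈ G, π g = u g := by
  classical
  have hcmp : ∀ a ∈ G, ∀ b ∈ G, cmp a b = cmp (u a) (u b) := by
    intro a ha b hb
    rcases lt_trichotomy a b with h | h | h
    · rw [(cmp_eq_lt_iff _ _).2 h, (cmp_eq_lt_iff _ _).2 (hu a ha b hb h)]
    · rw [h, cmp_self_eq_eq, cmp_self_eq_eq]
    · rw [(cmp_eq_gt_iff _ _).2 h, (cmp_eq_gt_iff _ _).2 (hu b hb a ha h)]
  let p : Order.PartialIso ℚ ℚ := ⟨G.image fun g => (g, u g), by
    intro a ha b hb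
    rw [Finset.mem_image] at ha hb
    obtain ⟨a', ha', rfl⟩ := ha
    obtain ⟨b', hb', rfl⟩ := hb
    exact hcmp a' ha' b' hb'⟩
  let I : Order.Ideal (Order.PartialIso ℚ ℚ) :=
    Order.idealOfCofinals p (Order.PartialIso.definedAtLeft ℚ)
  let F (a : ℚ) := Order.PartialIso.funOfIdeal a I
    (Order.cofinal_meets_idealOfCofinals _ (Order.PartialIso.definedAtLeft ℚ) a)
  refine ⟨fun a => (F a).val, fun a b hab => ?_, fun g hg => ?_⟩
  · obtain ⟨f, hf, hfa⟩ := (F a).prop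
    obtain ⟨f', hf', hfb⟩ := (F b).prop
    obtain ⟨m, -, fm, gm⟩ := I.directed _ hf _ hf'
    exact (lt_iff_lt_of_cmp_eq_cmp (m.prop (a, _) (fm hfa) (b, _) (gm hfb))).1 hab
  · obtain ⟨f, hf, hfa⟩ := (F g).prop
    have hp : p ∈ I := Order.mem_idealOfCofinals _ _
    obtain ⟨m, -, fm, gm⟩ := I.directed _ hf _ hp
    have hgp : (g, u g) ∈ p.val := Finset.mem_image_of_mem _ hg
    have h1 := m.prop (g, _) (fm hfa) (g, u g) (gm hgp)
    rw [cmp_self_eq_eq] at h1
    exact (cmp_eq_eq_iff _ _).1 h1.symm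

/-- countable subsets of linear orders embed into the rationals. -/
lemma emb_countable {W : Type*} [LinearOrder W] {R : Set W} (hR : R.Countable) :
    ∃ ε : W → ℚ, ∀ a ∈ R, ∀ b ∈ R, a < b → ε a < ε b := by
  classical
  have := hR.to_subtype
  obtain ⟨e⟩ := Order.embedding_from_countable_to_dense R ℚ
  refine ⟨fun w => if h : w ∈ R then e ⟨w, h⟩ else 0, fun a ha b hb hab => ?_⟩
  simp only [dif_pos ha, dif_pos hb]
  exact e.strictMono hab

/-- lower sets with a tie breaker -/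
abbrev Wt (L : Type) [LinearOrder L] : Type := LowerSet L ×ₗ (ℕ ×ₗ ℚ)

/-- elements of `Wt L` -/
def mk {L : Type} [LinearOrder L] (K : LowerSet L) (n : ℕ) (q : ℚ) : Wt L :=
  toLex (K, toLex (n, q))

section

variable {L : Type} [LinearOrder L]

lemma mk_lt_of_lt {K K' : LowerSet L} (h : K < K') (n n' : ℕ) (q q' : ℚ) :
    mk K n q < mk K' n' q' := Prod.Lex.toLex_lt_toLex.2 (Or.inl h)

lemma mk_lt_flag {K K' : LowerSet L} (h : K ≤ K') {n n' : ℕ} (hn : n < n') (q q' : ℚ) :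
    mk K n q < mk K' n' q' :=
  Prod.Lex.toLex_lt_toLex'.2 ⟨h, fun _ => Prod.Lex.toLex_lt_toLex.2 (Or.inl hn)⟩

lemma mk_lt_q {K K' : LowerSet L} (h : K ≤ K') (n : ℕ) {q q' : ℚ} (hq : q < q') :
    mk K n q < mk K' n q' :=
  Prod.Lex.toLex_lt_toLex'.2 ⟨h, fun _ => Prod.Lex.toLex_lt_toLex.2 (Or.inr ⟨rfl, hq⟩)⟩

lemma mk_lt_iff {K K' : LowerSet L} {n n' : ℕ} {q q' : ℚ} :
    mk K n q < mk K' n' q' ↔ K < K' ∨ K = K' ∧ (n < n' ∨ n = n' ∧ q < q') := by
  unfold mk
  rw [Prod.Lex.toLex_lt_toLex, Prod.Lex.toLex_lt_toLex]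

lemma mk_inj {K K' : LowerSet L} {n n' : ℕ} {q q' : ℚ} (h : mk K n q = mk K' n' q') :
    K = K' ∧ n = n' ∧ q = q' := by
  unfold mk at h
  have h1 := toLex.injective h
  have h2 := toLex.injective (Prod.mk.inj h1).2
  exact ⟨(Prod.mk.inj h1).1, (Prod.mk.inj h2).1, (Prod.mk.inj h2).2⟩

/-- the inclusion -/
def incl (l : L) : Wt L := mk (LowerSet.Iic l) 0 0

lemma incl_strictMono : StrictMono (incl : L → Wt L) := by
  intro a b hab
  refine mk_lt_of_lt ?_ _ _ _ _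
  rw [lt_iff_le_and_ne]
  refine ⟨fun x hx => ?_, fun h => ?_⟩
  · exact le_trans (show x ≤ a from hx) hab.le
  · have : b ∈ LowerSet.Iic a := by
      rw [h]
      exact le_refl b
    exact absurd (show b ≤ a from this) (not_le.2 hab)

lemma lt_Iic {K : LowerSet L} {l : L} (h : ∀ x ∈ K, x < l) : K < LowerSet.Iic l := by
  rw [lt_iff_le_and_ne]
  refine ⟨fun x hx => ?_, fun he => ?_⟩
  · exact (h x hx).le
  · have : l ∈ K := by
      rw [he]
      exact le_refl l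
    exact lt_irrefl _ (h l this)

lemma Iic_le {K : LowerSet L} {l : L} (h : l ∈ K) : LowerSet.Iic l ≤ K :=
  fun x hx => K.lower (show x ≤ l from hx) h

/-- strictly monotone functions on a subset of a strict order extend. -/
lemma extend {T : Type} (r : T → T → Prop) (htr : ∀ a b c, r a b → r b c → r a c)
    (c : T → ℚ) (hc : ∀ a b, r a b → c a < c b) (S : Set T) (φ : T → L)
    (hφ : ∀ a ∈ S, ∀ b ∈ S, r a b → φ a < φ b) :
    ∃ Φ : T → Wt L, (∀ a b, r a b → Φ a < Φ b) ∧ ∀ a ∈ S, Φ a = incl (φ a) := by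
  classical
  let K : T → LowerSet L := fun t =>
    ⟨{l | ∃ s ∈ S, r s t ∧ l ≤ φ s}, fun a b hab ⟨s, hs, hst, has⟩ => ⟨s, hs, hst, hab.trans has⟩⟩
  refine ⟨fun t => if t ∈ S then incl (φ t) else mk (K t) 1 (c t), ?_, fun a ha => if_pos ha⟩
  intro a b hab
  have hK : K a ≤ K b := fun l ⟨s, hs, hsa, hl⟩ => ⟨s, hs, htr _ _ _ hsa hab, hl⟩
  by_cases ha : a ∈ S <;> by_cases hb : b ∈ S
  · simp only [if_pos ha, if_pos hb]
    exact incl_strictMono (hφ a ha b hb hab)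
  · simp only [if_pos ha, if_neg hb]
    exact mk_lt_flag (Iic_le (show φ a ∈ K b from ⟨a, ha, hab, le_refl _⟩)) (by norm_num) _ _
  · simp only [if_neg ha, if_pos hb]
    refine mk_lt_of_lt (lt_Iic ?_) _ _ _ _
    rintro x ⟨s, hs, hsa, hx⟩
    exact lt_of_le_of_lt hx (hφ s hs b hb (htr _ _ _ hsa hab))
  · simp only [if_neg ha, if_neg hb]
    exact mk_lt_q hK 1 (hc a b hab)

end

/-- amalgamation of embeddings of the rationals. -/
lemma amalg {u v : ℚ → ℚ} (hu : StrictMono u) (hv : StrictMono v) :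
    ∃ π π' : ℚ → ℚ, StrictMono π ∧ StrictMono π' ∧ ∀ x, π (u x) = π' (v x) := by
  have key : ∀ w : ℚ → ℚ, StrictMono w → ∃ Φ : ℚ → Wt ℚ, StrictMono Φ ∧ ∀ x, Φ (w x) = incl x := by
    intro w hw
    obtain ⟨Φ, h1, h2⟩ := extend (L := ℚ) (fun a b : ℚ => a < b) (fun _ _ _ => lt_trans) id
      (fun _ _ h => h) (Set.range w) (Function.invFun w) (by
        rintro _ ⟨a, rfl⟩ _ ⟨b, rfl⟩ h
        rw [Function.leftInverse_invFun hw.injective, Function.leftInverse_invFun hw.injective]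
        exact hw.lt_iff_lt.1 h)
    refine ⟨Φ, fun a b h => h1 a b h, fun x => ?_⟩
    rw [h2 _ ⟨x, rfl⟩, Function.leftInverse_invFun hw.injective]
  obtain ⟨Φ, h1, h2⟩ := key u hu
  obtain ⟨Ψ, h3, h4⟩ := key v hv
  obtain ⟨ε, hε⟩ := emb_countable (R := Set.range Φ ∪ Set.range Ψ)
    ((Set.countable_range _).union (Set.countable_range _))
  refine ⟨fun x => ε (Φ x), fun x => ε (Ψ x), fun a b h => ?_, fun a b h => ?_, fun x => ?_⟩
  · exact hε _ (Or.inl ⟨a, rfl⟩) _ (Or.inl ⟨b, rfl⟩) (h1 h)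
  · exact hε _ (Or.inr ⟨a, rfl⟩) _ (Or.inr ⟨b, rfl⟩) (h3 h)
  · show ε (Φ (u x)) = ε (Ψ (v x))
    rw [h2, h4]

end Pool.Agent.R603.AQ
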