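import Mathlib

set_option autoImplicit false

namespace Pool.Agent.R603.AQ.Clones

/-- The rational numbers, as a set with the discrete topology. -/
def Q : Type := ℚ

noncomputable instance : LinearOrder Q := inferInstanceAs (LinearOrder ℚ)

instance : TopologicalSpace Q := ⊥

instance : DiscreteTopology Q := ⟨rfl⟩

/-- The `(n+1)`-ary operations on `α`. For a discrete `α` it carries the topology of pointwise
convergence. -/
abbrev Op (α : Type) (n : ℕ) : Type := (Fin (n + 1) → α) → α

/-- The space of all finitary operations of arity at least one, with the sum topology. -/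
abbrev AllOps (α : Type) : Type := Σ n : ℕ, Op α n

/-- A function clone on `α`: a set of finitary operations of arity at least one (given arity by
arity) that contains all projections and is closed under composition. -/
structure Clone (α : Type) where
  /-- the `(n+1)`-ary members -/
  ops : ∀ n : ℕ, Set (Op α n)
  proj_mem : ∀ (n : ℕ) (i : Fin (n + 1)), (fun x => x i) ∈ ops n
  comp_mem : ∀ (n m : ℕ) (f : Op α n) (g : Fin (n + 1) → Op α m), f ∈ ops n →
    (∀ i, g i ∈ ops m) → (fun x => f (fun i => g i x)) ∈ ops m

/-- The clone as a subset of the space of all operations. -/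
def Clone.toSet {α : Type} (C : Clone α) : Set (AllOps α) := {p | p.2 ∈ C.ops p.1}

/-- A clone isomorphism: an arity preserving bijection that respects projections and composition. -/
structure CloneIso {α β : Type} (C : Clone α) (D : Clone β) where
  /-- the underlying map -/
  map : ∀ n : ℕ, C.ops n → D.ops n
  bij : ∀ n : ℕ, Function.Bijective (map n)
  map_proj : ∀ (n : ℕ) (i : Fin (n + 1)),
    (map n ⟨fun x => x i, C.proj_mem n i⟩ : Op β n) = fun x => x i
  map_comp : ∀ (n m : ℕ) (f : C.ops n) (g : Fin (n + 1) → C.ops m),
    (map m ⟨fun x => (f : Op α n) (fun i => (g i : Op α m) x),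
      C.comp_mem n m f (fun i => g i) f.2 (fun i => (g i).2)⟩ : Op β m) =
    fun x => (map n f : Op β n) (fun i => (map m (g i) : Op β m) x)

/-- The isomorphism as a map between the two subspaces of the spaces of all operations. -/
def CloneIso.total {α β : Type} {C : Clone α} {D : Clone β} (ξ : CloneIso C D) :
    C.toSet → D.toSet :=
  fun p => ⟨⟨p.1.1, (ξ.map p.1.1 ⟨p.1.2, p.2⟩ : Op β p.1.1)⟩, (ξ.map p.1.1 ⟨p.1.2, p.2⟩).2⟩

/-- Automatic homeomorphicity: the clone is closed, and every clone isomorphism onto a closed clone
on the countably infinite set `ℕ` is a homeomorphism. -/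
def AutomaticHomeomorphicity {α : Type} [TopologicalSpace α] (C : Clone α) : Prop :=
  IsClosed C.toSet ∧
    ∀ D : Clone ℕ, IsClosed D.toSet → ∀ ξ : CloneIso C D, IsHomeomorph ξ.total

/-- The polymorphism clone of `(ℚ; <)`. -/
def PolQ : Clone Q where
  ops n := {f | ∀ a b : Fin (n + 1) → Q, (∀ i, a i < b i) → f a < f b}
  proj_mem := fun _ i _ _ h => h i
  comp_mem := fun _ _ _ _ hf hg a b h => hf _ _ fun i => hg i a b h

end Pool.Agent.R603.AQ.Clones
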