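import Mathlib
import Pool.Agent.R603.AQ.Base

set_option autoImplicit false
set_option linter.unusedVariables false

open Filter

namespace Pool.Agent.R603.AQ

/-! ### A tree of embeddings -/

/-- the `i`-th rational number -/
noncomputable def qq (i : ℕ) : ℚ := (Denumerable.eqv ℚ).symm i

/-- the index of a rational number -/
noncomputable def idx (x : ℚ) : ℕ := Denumerable.eqv ℚ x

lemma qq_idx (x : ℚ) : qq (idx x) = x := (Denumerable.eqv ℚ).symm_apply_apply x

lemma idx_qq (i : ℕ) : idx (qq i) = i := (Denumerable.eqv ℚ).apply_symm_apply i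

/-- the value at `i` of the code of `x` along the branch `s` -/
noncomputable def kf (s : ℕ → Bool) (x : ℚ) (i : ℕ) : ℤ :=
  if i ≤ idx x then
    (if qq i < x then (if s i then 2 else 1) else
      if x < qq i then (if s i then -1 else -2) else 0)
  else 0

lemma kf_gt (s : ℕ → Bool) (x : ℚ) {i : ℕ} (h : idx x < i) : kf s x i = 0 :=
  if_neg (not_le.2 h)

lemma kf_idx (s : ℕ → Bool) (x : ℚ) : kf s x (idx x) = 0 := by
  unfold kf
  rw [if_pos le_rfl, qq_idx, if_neg (lt_irrefl _), if_neg (lt_irrefl _)]

lemma kf_zero {s : ℕ → Bool} {x : ℚ} {i : ℕ} (h : kf s x i = 0) : idx x < i ∨ x = qq i := by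
  by_cases h1 : i ≤ idx x
  · right
    unfold kf at h
    rw [if_pos h1] at h
    rcases lt_trichotomy (qq i) x with h2 | h2 | h2
    · rw [if_pos h2] at h
      split_ifs at h <;> omega
    · exact h2.symm
    · rw [if_neg (not_lt.2 h2.le), if_pos h2] at h
      split_ifs at h
  · exact Or.inl (not_le.1 h1)

/-- the code of `x` along the branch `s` -/
noncomputable def key (s : ℕ → Bool) (x : ℚ) : Lex (ℕ →₀ ℤ) :=
  toLex (Finsupp.onFinset (Finset.range (idx x + 1)) (kf s x) fun i hi => by
    rw [Finset.mem_range]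
    by_contra h
    exact hi (kf_gt s x (by omega)))

lemma key_lt {s t : ℕ → Bool} {x x' : ℚ} (j : ℕ) (h1 : ∀ i < j, kf s x i = kf t x' i)
    (h2 : kf s x j < kf t x' j) : key s x < key t x' :=
  ⟨j, h1, h2⟩

lemma key_lt' {s t : ℕ → Bool} {x x' : ℚ} (n : ℕ) (h1 : ∀ i ≤ n, kf s x i ≤ kf t x' i)
    (h2 : kf s x n < kf t x' n) : key s x < key t x' := by
  classical
  have hex : ∃ i, kf s x i ≠ kf t x' i := ⟨n, h2.ne⟩
  have hle : Nat.find hex ≤ n := Nat.find_min' hex h2.ne
  refine key_lt (Nat.find hex) (fun i hi => ?_)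
    (lt_of_le_of_ne (h1 _ hle) (Nat.find_spec hex))
  exact not_not.1 (Nat.find_min hex hi)

lemma key_strictMono (s : ℕ → Bool) : StrictMono (key s) := by
  intro x x' h
  have hcode : ∀ i, i ≤ idx x → i ≤ idx x' → kf s x i ≤ kf s x' i := by
    intro i hi hi'
    unfold kf
    rw [if_pos hi, if_pos hi']
    rcases lt_trichotomy (qq i) x with h1 | h1 | h1
    · rw [if_pos h1, if_pos (h1.trans h)]
    · rw [h1, if_neg (lt_irrefl _), if_neg (lt_irrefl _), if_pos h]
      split_ifs <;> norm_num
    · rw [if_neg (not_lt.2 h1.le), if_pos h1]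
      split_ifs <;> norm_num
  rcases lt_trichotomy (idx x) (idx x') with h1 | h1 | h1
  · refine key_lt' (idx x) (fun i hi => hcode i hi (hi.trans h1.le)) ?_
    rw [kf_idx]
    refine lt_of_le_of_ne ?_ fun he => ?_
    · have := hcode (idx x) le_rfl h1.le
      rwa [kf_idx] at this
    · rcases kf_zero he.symm with h2 | h2
      · omega
      · rw [qq_idx] at h2
        exact absurd h2 h.ne'
  · have : x = x' := by rw [← qq_idx x, ← qq_idx x', h1]
    exact absurd this h.ne
  · refine key_lt' (idx x') (fun i hi => hcode i (hi.trans h1.le) hi) ?_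
    rw [kf_idx]
    refine lt_of_le_of_ne ?_ fun he => ?_
    · have := hcode (idx x') h1.le le_rfl
      rwa [kf_idx] at this
    · rcases kf_zero he with h2 | h2
      · omega
      · rw [qq_idx] at h2
        exact absurd h2 h.ne

lemma key_eq {s t : ℕ → Bool} {m : ℕ} (hst : ∀ i < m, s i = t i) {x : ℚ} (hx : idx x ≤ m) :
    key s x = key t x := by
  have h : kf s x = kf t x := by
    funext i
    rcases lt_trichotomy i (idx x) with h1 | h1 | h1
    · unfold kf
      rw [hst i (by omega)]
    · rw [h1, kf_idx, kf_idx]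
    · rw [kf_gt s x h1, kf_gt t x h1]
  unfold key
  congr 1
  ext i
  exact congrFun h i

lemma bool_aux {a b : Bool} {P : Prop} (h1 : a = true → b = true)
    (h2 : P → a = false ∧ b = true) {p q : ℤ} (hpq : q < p) :
    (if a then p else q) ≤ (if b then p else q) ∧
      (P → (if a then p else q) < (if b then p else q)) := by
  constructor
  · cases ha : a
    · cases b
      · exact le_refl _
      · exact hpq.le
    · rw [h1 ha]
  · intro hP
    obtain ⟨ha, hb⟩ := h2 hP
    rw [ha, hb]
    exact hpq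

lemma key_cross {s t : ℕ → Bool} {m : ℕ} (hst : ∀ i < m, s i = t i) (hs : s m = false)
    (ht : t m = true) {x x' : ℚ} (hx : m < idx x)
    (hx' : ∀ i ≤ m, ¬ (x < qq i ∧ qq i ≤ x')) : key s x' < key t x := by
  have hne : ∀ i ≤ m, x ≠ qq i := by
    rintro i hi rfl
    rw [idx_qq] at hx
    omega
  have hcode : ∀ i ≤ m, i ≤ idx x' → kf s x' i ≤ kf t x i ∧
      (i = m ∨ i = idx x' → kf s x' i < kf t x i) := by
    intro i hi hi'
    have hb : (s i = true → t i = true) ∧ (i = m → s i = false ∧ t i = true) := by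
      rcases lt_or_eq_of_le hi with h | h
      · refine ⟨fun h1 => by rwa [hst i h] at h1, fun h1 => by omega⟩
      · subst h
        exact ⟨fun _ => ht, fun _ => ⟨hs, ht⟩⟩
    rcases lt_or_gt_of_ne (hne i hi) with h1 | h1
    · -- x < qq i, hence x' < qq i
      have h2 : x' < qq i := by
        by_contra h3
        exact hx' i hi ⟨h1, not_lt.1 h3⟩
      have e1 : kf t x i = if t i then -1 else -2 := by
        unfold kf
        rw [if_pos (by omega), if_neg (not_lt.2 h1.le), if_pos h1]
      have e2 : kf s x' i = if s i then -1 else -2 := by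
        unfold kf
        rw [if_pos hi', if_neg (not_lt.2 h2.le), if_pos h2]
      have h3 : i ≠ idx x' := by
        rintro rfl
        rw [qq_idx] at h2
        exact lt_irrefl _ h2
      rw [e1, e2]
      have h4 := bool_aux (p := -1) (q := -2) hb.1 hb.2 (by norm_num)
      exact ⟨h4.1, fun h5 => h4.2 (h5.resolve_right h3)⟩
    · have e1 : kf t x i = if t i then 2 else 1 := by
        unfold kf
        rw [if_pos (by omega), if_pos h1]
      rcases lt_trichotomy (qq i) x' with h2 | h2 | h2
      · have e2 : kf s x' i = if s i then 2 else 1 := by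
          unfold kf
          rw [if_pos hi', if_pos h2]
        have h3 : i ≠ idx x' := by
          rintro rfl
          rw [qq_idx] at h2
          exact lt_irrefl _ h2
        rw [e1, e2]
        have h4 := bool_aux (p := 2) (q := 1) hb.1 hb.2 (by norm_num)
        exact ⟨h4.1, fun h5 => h4.2 (h5.resolve_right h3)⟩
      · have e2 : kf s x' i = 0 := by
          unfold kf
          rw [if_pos hi', h2, if_neg (lt_irrefl _), if_neg (lt_irrefl _)]
        rw [e1, e2]
        refine ⟨by split_ifs <;> omega, fun _ => by split_ifs <;> omega⟩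
      · have e2 : kf s x' i = if s i then -1 else -2 := by
          unfold kf
          rw [if_pos hi', if_neg (not_lt.2 h2.le), if_pos h2]
        rw [e1, e2]
        refine ⟨by split_ifs <;> omega, fun _ => by split_ifs <;> omega⟩
  rcases le_total m (idx x') with h | h
  · exact key_lt' m (fun i hi => (hcode i hi (hi.trans h)).1) ((hcode m le_rfl h).2 (Or.inl rfl))
  · exact key_lt' (idx x') (fun i hi => (hcode i (hi.trans h) hi).1)
      ((hcode (idx x') h le_rfl).2 (Or.inr rfl))

/-- two embeddings that agree on `G` and are separated otherwise -/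
structure Pair (G : Finset ℚ) (u w : ℚ → ℚ) : Prop where
  su : StrictMono u
  sw : StrictMono w
  eq : ∀ g ∈ G, u g = w g
  cross : ∀ x, x ∉ G → ∀ x', (∀ g ∈ G, ¬ (x < g ∧ g ≤ x')) → u x' < w x

/-- the tree of embeddings. -/
lemma exists_family : ∃ F : (ℕ → Bool) → ℚ → ℚ, ∀ s t : ℕ → Bool, ∀ m : ℕ, (∀ i < m, s i = t i) →
    s m = false → t m = true → Pair ((Finset.range (m + 1)).image qq) (F s) (F t) := by
  classical
  have hc : (Set.univ : Set (Lex (ℕ →₀ ℤ))).Countable := by
    have : Countable (Lex (ℕ →₀ ℤ)) := inferInstanceAs (Countable (ℕ →₀ ℤ))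
    exact Set.countable_univ
  obtain ⟨ε, hε⟩ := emb_countable hc
  have hmono : ∀ a b, a < b → ε a < ε b := fun a b h => hε a trivial b trivial h
  refine ⟨fun s x => ε (key s x), fun s t m hst hs ht => ?_⟩
  have hmem : ∀ x : ℚ, x ∈ (Finset.range (m + 1)).image qq ↔ idx x ≤ m := by
    intro x
    rw [Finset.mem_image]
    constructor
    · rintro ⟨i, hi, rfl⟩
      rw [idx_qq]
      have := Finset.mem_range.1 hi
      omega
    · intro h
      exact ⟨idx x, Finset.mem_range.2 (by omega), qq_idx x⟩
  refine ⟨fun a b h => hmono _ _ (key_strictMono s h), fun a b h => hmono _ _ (key_strictMono t h),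
    fun g hg => ?_, fun x hx x' hx' => ?_⟩
  · show ε (key s g) = ε (key t g)
    rw [key_eq hst ((hmem g).1 hg)]
  · refine hmono _ _ (key_cross hst hs ht ?_ fun i hi => hx' _ ?_)
    · by_contra h
      exact hx ((hmem x).2 (not_lt.1 h))
    · rw [hmem, idx_qq]
      exact hi

/-- two copies of the rationals glued over a finite set. -/
lemma exists_beta (F₀ : Finset ℚ) : ∃ (F : Finset ℚ) (β₁ β₂ : ℚ → ℚ), F₀ ⊆ F ∧ StrictMono β₁ ∧
    StrictMono β₂ ∧ (∀ f ∈ F, β₁ f = f) ∧ (∀ f ∈ F, β₂ f = f) ∧
    ∀ x x', (¬ ∃ f ∈ F, x' ≤ f ∧ f ≤ x) → β₁ x < β₂ x' := by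
  classical
  obtain ⟨Fam, hFam⟩ := exists_family
  let m := F₀.sup idx
  have hP := hFam (fun _ => false) (fun i => decide (i = m)) m (fun i hi => by
    simp only [Bool.false_eq, decide_eq_false_iff_not]
    omega) rfl (by simp)
  set G : Finset ℚ := (Finset.range (m + 1)).image qq with hG
  set u := Fam (fun _ => false) with hu
  set w := Fam (fun i => decide (i = m)) with hw
  obtain ⟨θ, hθ, hθG⟩ := ext_fin (G.image u) (Function.invFun u) (by
    intro a ha b hb hab
    rw [Finset.mem_image] at ha hb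
    obtain ⟨a', -, rfl⟩ := ha
    obtain ⟨b', -, rfl⟩ := hb
    rw [Function.leftInverse_invFun hP.su.injective, Function.leftInverse_invFun hP.su.injective]
    exact hP.su.lt_iff_lt.1 hab)
  have hid : ∀ g ∈ G, θ (u g) = g := fun g hg => by
    rw [hθG _ (Finset.mem_image_of_mem _ hg), Function.leftInverse_invFun hP.su.injective]
  refine ⟨G, θ ∘ u, θ ∘ w, fun f hf => ?_, hθ.comp hP.su, hθ.comp hP.sw, hid, fun f hf => ?_,
    fun x x' h => ?_⟩
  · rw [hG, Finset.mem_image]
    exact ⟨idx f, Finset.mem_range.2 (Nat.lt_succ_of_le (Finset.le_sup (f := idx) hf)), qq_idx f⟩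
  · show θ (w f) = f
    rw [← hP.eq f hf, hid f hf]
  · by_cases hx' : x' ∈ G
    · have h1 : x < x' := by
        by_contra h2
        exact h ⟨x', hx', le_refl _, not_lt.1 h2⟩
      show θ (u x) < θ (w x')
      rw [← hP.eq x' hx']
      exact hθ (hP.su h1)
    · refine hθ (hP.cross x' hx' x fun g hg hg' => h ⟨g, hg, hg'.1.le, hg'.2⟩)

end Pool.Agent.R603.AQ
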