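import Mathlib
import Pool.Agent.R603.AQ.Fam

set_option autoImplicit false
set_option linter.unusedVariables false

open Filter

namespace Pool.Agent.R603.AQ

/-- `B` supports the point `y`. -/
def Sup (X : ∀ n, Op ℚ n → Op ℕ n) (B : Set ℚ) (y : ℕ) : Prop :=
  ∀ v v' : ℚ → ℚ, StrictMono v → StrictMono v' → (∀ b ∈ B, v b = v' b) → A X v y = A X v' y

/-- embeddings with the same image of a finite set agree on it. -/
lemma eq_of_image_eq {G : Finset ℚ} {u v : ℚ → ℚ} (hu : StrictMono u) (hv : StrictMono v)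
    (h : G.image u = G.image v) : ∀ g ∈ G, u g = v g := by
  classical
  by_contra hcon
  push Not at hcon
  obtain ⟨g₀, hg₀, hne₀⟩ := hcon
  have hB : (G.filter fun g => u g ≠ v g).Nonempty := ⟨g₀, Finset.mem_filter.2 ⟨hg₀, hne₀⟩⟩
  obtain ⟨g, hg, hmin⟩ : ∃ g ∈ G.filter (fun g => u g ≠ v g),
      ∀ g' ∈ G.filter (fun g => u g ≠ v g), g ≤ g' :=
    ⟨_, Finset.min'_mem _ hB, fun g' hg' => Finset.min'_le _ g' hg'⟩
  rw [Finset.mem_filter] at hg
  have hlow : ∀ g' ∈ G, g' < g → u g' = v g' := by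
    intro g' hg' hlt
    by_contra hne
    exact absurd (hmin g' (Finset.mem_filter.2 ⟨hg', hne⟩)) (not_le.2 hlt)
  rcases lt_or_gt_of_ne hg.2 with h1 | h1
  · have h2 : u g ∈ G.image v := h ▸ Finset.mem_image_of_mem u hg.1
    obtain ⟨g', hg', h3⟩ := Finset.mem_image.1 h2
    have h4 : g' < g := hv.lt_iff_lt.1 (by rw [h3]; exact h1)
    have h5 := hlow g' hg' h4
    rw [h3] at h5
    exact absurd (hu.injective h5) h4.ne
  · have h2 : v g ∈ G.image u := h ▸ Finset.mem_image_of_mem v hg.1
    obtain ⟨g', hg', h3⟩ := Finset.mem_image.1 h2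
    have h4 : g' < g := hu.lt_iff_lt.1 (by rw [h3]; exact h1)
    have h5 := hlow g' hg' h4
    rw [h3] at h5
    exact absurd (hv.injective h5.symm) h4.ne

namespace Setup

variable {D : ∀ n, Set (Op ℕ n)} {X : ∀ n, Op ℚ n → Op ℕ n}

/-- the chain argument -/
lemma pair_sup (S : Setup D X) {G : Finset ℚ} {u w : ℚ → ℚ} (hp : Pair G u w) {y : ℕ}
    (hy : A X u y = A X w y) (π π' : ℚ → ℚ) (hπ : StrictMono π) (hπ' : StrictMono π')
    (hG : ∀ g ∈ G, π (u g) = π' (u g)) : A X π (A X u y) = A X π' (A X u y) := by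
  classical
  let T : Set ℚ := {z | ∃ x, x ∉ G ∧ w x ≤ z ∧ ∀ g ∈ G, ¬ (w x < u g ∧ u g ≤ z)}
  have hT1 : ∀ x', u x' ∉ T := by
    rintro x' ⟨x, hx, hxz, hg⟩
    have h := hp.cross x hx x' fun g hg' h => hg g hg' ⟨by
      rw [hp.eq g hg']
      exact hp.sw h.1, hp.su.monotone h.2⟩
    exact absurd hxz (not_le.2 h)
  have hT2 : ∀ x, x ∉ G → w x ∈ T := fun x hx => ⟨x, hx, le_refl _, fun g _ h =>
    absurd h.1 (not_lt.2 h.2)⟩
  have hT3 : ∀ z ∈ T, ∀ z', z' ∉ T → z < z' → ∃ g ∈ G, z < u g ∧ u g ≤ z' := by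
    rintro z ⟨x, hx, hxz, hg⟩ z' hz' hzz
    by_contra hcon
    push Not at hcon
    refine hz' ⟨x, hx, hxz.trans hzz.le, fun g hg' h => ?_⟩
    rcases lt_or_ge z (u g) with h1 | h1
    · exact absurd h.2 (not_le.2 (hcon g hg' h1))
    · exact hg g hg' ⟨h.1, h1⟩
  -- the modifications
  have hmod : ∀ ρ ρ' : ℚ → ℚ, StrictMono ρ → StrictMono ρ' → (∀ g ∈ G, ρ (u g) = ρ' (u g)) →
      StrictMono (fun z => if z ∈ T then max (ρ z) (ρ' z) else ρ z) := by
    intro ρ ρ' hρ hρ' hg z z' hzz
    by_cases h1 : z ∈ T <;> by_cases h2 : z' ∈ T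
    · simp only [if_pos h1, if_pos h2]
      exact max_lt_max (hρ hzz) (hρ' hzz)
    · simp only [if_pos h1, if_neg h2]
      obtain ⟨g, hgG, h3, h4⟩ := hT3 z h1 z' h2 hzz
      refine lt_of_lt_of_le (max_lt (hρ h3) ?_) (hρ.monotone h4)
      rw [hg g hgG]
      exact hρ' h3
    · simp only [if_neg h1, if_pos h2]
      exact lt_of_lt_of_le (hρ hzz) (le_max_left _ _)
    · simp only [if_neg h1, if_neg h2]
      exact hρ hzz
  let ρ₁ : ℚ → ℚ := fun z => if z ∈ T then max (π z) (π' z) else π z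
  let ρ₂ : ℚ → ℚ := fun z => if z ∈ T then max (π' z) (π z) else π' z
  have h1 : StrictMono ρ₁ := hmod π π' hπ hπ' hG
  have h2 : StrictMono ρ₂ := hmod π' π hπ' hπ fun g hg => (hG g hg).symm
  have e1 : π ∘ u = ρ₁ ∘ u := funext fun x => (if_neg (hT1 x)).symm
  have e2 : π' ∘ u = ρ₂ ∘ u := funext fun x => (if_neg (hT1 x)).symm
  have e3 : ρ₁ ∘ w = ρ₂ ∘ w := by
    funext x
    show (if w x ∈ T then max (π (w x)) (π' (w x)) else π (w x)) =
      (if w x ∈ T then max (π' (w x)) (π (w x)) else π' (w x))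
    by_cases hx : w x ∈ T
    · rw [if_pos hx, if_pos hx, max_comm]
    · rw [if_neg hx, if_neg hx]
      have hxG : x ∈ G := by
        by_contra h
        exact hx (hT2 x h)
      rw [← hp.eq x hxG]
      exact hG x hxG
  calc A X π (A X u y) = A X (π ∘ u) y := (S.A_comp hπ hp.su y).symm
    _ = A X (ρ₁ ∘ u) y := by rw [e1]
    _ = A X ρ₁ (A X w y) := by rw [S.A_comp h1 hp.su, hy]
    _ = A X (ρ₁ ∘ w) y := (S.A_comp h1 hp.sw y).symm
    _ = A X (ρ₂ ∘ w) y := by rw [e3]
    _ = A X ρ₂ (A X u y) := by rw [S.A_comp h2 hp.sw, hy]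
    _ = A X (ρ₂ ∘ u) y := (S.A_comp h2 hp.su y).symm
    _ = A X (π' ∘ u) y := by rw [e2]
    _ = A X π' (A X u y) := S.A_comp hπ' hp.su y

/-- a good embedding -/
def Good (X : ∀ n, Op ℚ n → Op ℕ n) (u : ℚ → ℚ) (G : ℕ → Finset ℚ) : Prop :=
  StrictMono u ∧ ∀ y, ∀ π π' : ℚ → ℚ, StrictMono π → StrictMono π' →
    (∀ g ∈ G y, π (u g) = π' (u g)) → A X π (A X u y) = A X π' (A X u y)

lemma exists_good (S : Setup D X) : ∃ (u : ℚ → ℚ) (G : ℕ → Finset ℚ), Good X u G := by
  classical
  obtain ⟨Fam, hFam⟩ := exists_family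
  -- a branch outside of countably many exceptional ones
  have hB : ∃ s : ℕ → Bool, ∀ y, ∃ t, t ≠ s ∧ A X (Fam s) y = A X (Fam t) y := by
    by_contra hcon
    push Not at hcon
    choose Y hY using hcon
    -- s ↦ (Y s, A (Fam s) (Y s)) is injective
    have hinj : Function.Injective (fun s : ℕ → Bool => (Y s, A X (Fam s) (Y s))) := by
      intro s t hst
      by_contra hne
      have h1 := (Prod.mk.inj hst).1
      have h2 := (Prod.mk.inj hst).2
      refine hY s t (fun h => hne h.symm) ?_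
      rw [h2, h1]
    have hcount : Countable (ℕ → Bool) := hinj.countable
    obtain ⟨f, hf⟩ := exists_injective_nat (ℕ → Bool)
    refine Function.cantor_injective (fun s : Set ℕ => f fun n => decide (n ∈ s)) ?_
    intro s t h
    have h1 := hf h
    ext n
    have h2 := congrFun h1 n
    simpa using h2
  obtain ⟨s, hs⟩ := hB
  have hmono : StrictMono (Fam s) := by
    cases h : s 0
    · exact (hFam s (fun _ => true) 0 (fun i hi => absurd hi (Nat.not_lt_zero _)) h rfl).su
    · exact (hFam (fun _ => false) s 0 (fun i hi => absurd hi (Nat.not_lt_zero _)) rfl h).sw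
  have hall : ∀ y, ∃ G : Finset ℚ, ∀ π π' : ℚ → ℚ, StrictMono π → StrictMono π' →
      (∀ g ∈ G, π (Fam s g) = π' (Fam s g)) →
      A X π (A X (Fam s) y) = A X π' (A X (Fam s) y) := by
    intro y
    obtain ⟨t, hts, hy⟩ := hs y
    have hex : ∃ i, s i ≠ t i := by
      by_contra hcon
      push Not at hcon
      exact hts (funext fun i => (hcon i).symm)
    have hlt : ∀ i < Nat.find hex, s i = t i := fun i hi => not_not.1 (Nat.find_min hex hi)
    have hne := Nat.find_spec hex
    refine ⟨(Finset.range (Nat.find hex + 1)).image qq, fun π π' hπ hπ' hG => ?_⟩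
    cases h1 : s (Nat.find hex)
    · have h2 : t (Nat.find hex) = true := by
        cases h3 : t (Nat.find hex)
        · rw [h1, h3] at hne
          exact absurd rfl hne
        · rfl
      exact S.pair_sup (hFam s t _ hlt h1 h2) hy π π' hπ hπ' hG
    · have h2 : t (Nat.find hex) = false := by
        cases h3 : t (Nat.find hex)
        · rfl
        · rw [h1, h3] at hne
          exact absurd rfl hne
      have hP := hFam t s _ (fun i hi => (hlt i hi).symm) h2 h1
      rw [hy]
      exact S.pair_sup hP hy.symm π π' hπ hπ' fun g hg => by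
        rw [hP.eq g hg]
        exact hG g hg
  choose G hG using hall
  exact ⟨Fam s, G, hmono, hG⟩

/-- an embedding that inverts `u` on a finite set. -/
lemma exists_inv {u : ℚ → ℚ} (hu : StrictMono u) (G : Finset ℚ) :
    ∃ π : ℚ → ℚ, StrictMono π ∧ ∀ g ∈ G, π (u g) = g := by
  classical
  obtain ⟨π, h1, h2⟩ := ext_fin (G.image u) (Function.invFun u) (by
    intro a ha b hb hab
    rw [Finset.mem_image] at ha hb
    obtain ⟨a', -, rfl⟩ := ha
    obtain ⟨b', -, rfl⟩ := hb
    rw [Function.leftInverse_invFun hu.injective, Function.leftInverse_invFun hu.injective]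
    exact hu.lt_iff_lt.1 hab)
  exact ⟨π, h1, fun g hg => by
    rw [h2 _ (Finset.mem_image_of_mem _ hg), Function.leftInverse_invFun hu.injective]⟩

/-- every point has a finite support. -/
lemma exists_sup (S : Setup D X) (y : ℕ) : ∃ G : Finset ℚ, Sup X (G : Set ℚ) y := by
  classical
  obtain ⟨u, G, hu, hG⟩ := S.exists_good
  -- the limit of the images of embeddings that invert `u` on larger and larger sets
  choose τ hτ1 hτ2 using fun F : Finset ℚ => exists_inv hu F
  let p : ℕ → ℕ := fun z => A X (τ (G z)) (A X u z)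
  have hp : ∀ z π, StrictMono π → (∀ g ∈ G z, π (u g) = g) → A X π (A X u z) = p z := by
    intro z π hπ h
    exact hG z _ _ hπ (hτ1 _) fun g hg => by rw [h g hg, hτ2 _ g hg]
  obtain ⟨e, he, hep⟩ := S.A_limit p (by
    intro T
    refine ⟨τ (T.biUnion G) ∘ u, (hτ1 _).comp hu, fun z hz => ?_⟩
    rw [S.A_comp (hτ1 _) hu]
    exact hp z _ (hτ1 _) fun g hg => hτ2 _ g (Finset.mem_biUnion.2 ⟨z, hz, hg⟩))
  have hez : ∀ z π, StrictMono π → (∀ g ∈ G z, π (u g) = g) → A X π (A X u z) = A X e z := by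
    intro z π hπ h
    rw [hp z π hπ h, hep]
  -- `e` commutes with everything
  have hcomm : ∀ σ : ℚ → ℚ, StrictMono σ → e ∘ σ = σ ∘ e := by
    intro σ hσ
    refine S.A_inj (he.comp hσ) (hσ.comp he) fun z => ?_
    rw [S.A_comp he hσ, S.A_comp hσ he]
    obtain ⟨π₁, π₂, h1, h2, h12⟩ := amalg hu (hu.comp hσ)
    -- θ inverts `π₂ ∘ u` on a finite set
    obtain ⟨θ, hθ, hθF⟩ := exists_inv (h2.comp hu) ((G z).image σ ∪ G (A X σ z))
    have k1 : A X (θ ∘ π₂) (A X u (A X σ z)) = A X e (A X σ z) :=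
      hez _ _ (hθ.comp h2) fun g hg => hθF g (Finset.mem_union_right _ hg)
    have k2 : A X (θ ∘ π₁) (A X u z) = A X (σ ∘ τ (G z)) (A X u z) := by
      refine hG z _ _ (hθ.comp h1) (hσ.comp (hτ1 _)) fun g hg => ?_
      show θ (π₁ (u g)) = σ (τ (G z) (u g))
      rw [hτ2 _ g hg, h12 g]
      exact hθF _ (Finset.mem_union_left _ (Finset.mem_image_of_mem _ hg))
    have k3 : (θ ∘ π₁) ∘ u = ((θ ∘ π₂) ∘ u) ∘ σ := by
      funext x
      show θ (π₁ (u x)) = θ (π₂ (u (σ x)))
      rw [h12 x]
      rfl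
    calc A X e (A X σ z) = A X (θ ∘ π₂) (A X u (A X σ z)) := k1.symm
      _ = A X (((θ ∘ π₂) ∘ u) ∘ σ) z := by
          rw [S.A_comp ((hθ.comp h2).comp hu) hσ, S.A_comp (hθ.comp h2) hu]
      _ = A X ((θ ∘ π₁) ∘ u) z := by rw [k3]
      _ = A X (θ ∘ π₁) (A X u z) := S.A_comp (hθ.comp h1) hu z
      _ = A X (σ ∘ τ (G z)) (A X u z) := k2
      _ = A X σ (A X (τ (G z)) (A X u z)) := S.A_comp hσ (hτ1 _) _
      _ = A X σ (A X e z) := by rw [hez z _ (hτ1 _) (hτ2 _)]
  have heid : ∀ x, e x = x := by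
    intro x
    by_contra hne
    -- σ fixes x and moves e x
    obtain ⟨σ, hσ, hx, hex⟩ : ∃ σ : ℚ → ℚ, StrictMono σ ∧ σ x = x ∧ σ (e x) ≠ e x := by
      rcases lt_or_gt_of_ne hne with h | h
      · obtain ⟨c, hc⟩ := exists_lt (e x)
        obtain ⟨σ, h1, h2⟩ := ext_fin {x, e x} (fun z => if z = x then x else c) (by
          intro a ha b hb hab
          simp only [Finset.mem_insert, Finset.mem_singleton] at ha hb
          rcases ha with rfl | rfl <;> rcases hb with rfl | rfl
          · exact absurd hab (lt_irrefl _)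
          · exact absurd hab (not_lt.2 h.le)
          · simp only [if_neg hne, if_true]
            exact hc.trans h
          · exact absurd hab (lt_irrefl _))
        refine ⟨σ, h1, ?_, ?_⟩
        · rw [h2 x (by simp)]
          simp
        · rw [h2 (e x) (by simp)]
          simp only [if_neg hne]
          exact hc.ne
      · obtain ⟨c, hc⟩ := exists_gt (e x)
        obtain ⟨σ, h1, h2⟩ := ext_fin {x, e x} (fun z => if z = x then x else c) (by
          intro a ha b hb hab
          simp only [Finset.mem_insert, Finset.mem_singleton] at ha hb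
          rcases ha with rfl | rfl <;> rcases hb with rfl | rfl
          · exact absurd hab (lt_irrefl _)
          · simp only [if_neg hne, if_true]
            exact lt_trans h hc
          · exact absurd hab (not_lt.2 (le_of_lt h))
          · exact absurd hab (lt_irrefl _))
        refine ⟨σ, h1, ?_, ?_⟩
        · rw [h2 x (by simp)]
          simp
        · rw [h2 (e x) (by simp)]
          simp only [if_neg hne]
          exact hc.ne'
    have h := congrFun (hcomm σ hσ) x
    simp only [Function.comp_apply] at h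
    rw [hx] at h
    exact hex h.symm
  have heid' : e = id := funext heid
  refine ⟨G y, fun v v' hv hv' h => ?_⟩
  have hyy : A X (τ (G y)) (A X u y) = y := by
    rw [hez y _ (hτ1 _) (hτ2 _), heid', S.A_id]
  have k : ∀ v : ℚ → ℚ, StrictMono v → A X v y = A X (v ∘ τ (G y)) (A X u y) := by
    intro v hv
    rw [S.A_comp hv (hτ1 _), hyy]
  rw [k v hv, k v' hv']
  refine hG y _ _ (hv.comp (hτ1 _)) (hv'.comp (hτ1 _)) fun g hg => ?_
  show v (τ (G y) (u g)) = v' (τ (G y) (u g))
  rw [hτ2 _ g hg]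
  exact h g hg

/-- a minimal support -/
def MinSup (X : ∀ n, Op ℚ n → Op ℕ n) (G : Finset ℚ) (y : ℕ) : Prop :=
  Sup X (G : Set ℚ) y ∧ ∀ G' : Finset ℚ, Sup X (G' : Set ℚ) y → G.card ≤ G'.card

lemma exists_minSup (S : Setup D X) (y : ℕ) : ∃ G : Finset ℚ, MinSup X G y := by
  classical
  have hex : ∃ k, ∃ G : Finset ℚ, Sup X (G : Set ℚ) y ∧ G.card = k := by
    obtain ⟨G, hG⟩ := S.exists_sup y
    exact ⟨_, G, hG, rfl⟩
  obtain ⟨G, hG, hc⟩ := Nat.find_spec hex
  refine ⟨G, hG, fun G' hG' => ?_⟩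
  rw [hc]
  exact Nat.find_min' hex ⟨G', hG', rfl⟩

/-- a minimal support is contained in every support, finite or infinite. -/
lemma minSup_sub (S : Setup D X) {G : Finset ℚ} {y : ℕ} (hG : MinSup X G y) {B : Set ℚ}
    (hB : Sup X B y) : ∀ x ∈ G, x ∈ B := by
  classical
  intro x hx
  by_contra hxB
  -- comparable embeddings
  have hle : ∀ π π' : ℚ → ℚ, StrictMono π → StrictMono π' → (∀ z, π z ≤ π' z) →
      (∀ g ∈ G.erase x, π g = π' g) → A X π y = A X π' y := by
    intro π π' hπ hπ' hle heq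
    let ρ₁ : ℚ → ℚ := fun z => if x < z then π' z else π z
    let ρ₂ : ℚ → ℚ := fun z => if x ≤ z then π' z else π z
    have h1 : StrictMono ρ₁ := by
      intro a b hab
      show (if x < a then π' a else π a) < (if x < b then π' b else π b)
      by_cases ha : x < a
      · rw [if_pos ha, if_pos (ha.trans hab)]
        exact hπ' hab
      · rw [if_neg ha]
        by_cases hb : x < b
        · rw [if_pos hb]
          exact lt_of_le_of_lt (hle a) (hπ' hab)
        · rw [if_neg hb]
          exact hπ hab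
    have h2 : StrictMono ρ₂ := by
      intro a b hab
      show (if x ≤ a then π' a else π a) < (if x ≤ b then π' b else π b)
      by_cases ha : x ≤ a
      · rw [if_pos ha, if_pos (ha.trans hab.le)]
        exact hπ' hab
      · rw [if_neg ha]
        by_cases hb : x ≤ b
        · rw [if_pos hb]
          exact lt_of_le_of_lt (hle a) (hπ' hab)
        · rw [if_neg hb]
          exact hπ hab
    have k1 : A X π y = A X ρ₁ y := by
      refine hG.1 _ _ hπ h1 fun g hg => ?_
      show π g = if x < g then π' g else π g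
      by_cases hgx : x < g
      · rw [if_pos hgx]
        exact heq g (Finset.mem_erase.2 ⟨hgx.ne', hg⟩)
      · rw [if_neg hgx]
    have k2 : A X ρ₁ y = A X ρ₂ y := by
      refine hB _ _ h1 h2 fun b hb => ?_
      show (if x < b then π' b else π b) = (if x ≤ b then π' b else π b)
      have hne : x ≠ b := fun h => hxB (h ▸ hb)
      rcases lt_or_gt_of_ne hne with h | h
      · rw [if_pos h, if_pos h.le]
      · rw [if_neg (not_lt.2 h.le), if_neg (not_le.2 h)]
    have k3 : A X ρ₂ y = A X π' y := by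
      refine hG.1 _ _ h2 hπ' fun g hg => ?_
      show (if x ≤ g then π' g else π g) = π' g
      by_cases hgx : x ≤ g
      · rw [if_pos hgx]
      · rw [if_neg hgx]
        exact heq g (Finset.mem_erase.2 ⟨fun h => hgx h.ge, hg⟩)
    rw [k1, k2, k3]
  have hsup : Sup X ((G.erase x : Finset ℚ) : Set ℚ) y := by
    intro v v' hv hv' h
    have hm : StrictMono (fun z => max (v z) (v' z)) := fun a b hab =>
      max_lt_max (hv hab) (hv' hab)
    have k1 := hle v _ hv hm (fun z => le_max_left _ _) fun g hg => by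
      show v g = max (v g) (v' g)
      rw [h g hg, max_self]
    have k2 := hle v' _ hv' hm (fun z => le_max_right _ _) fun g hg => by
      show v' g = max (v g) (v' g)
      rw [h g hg, max_self]
    rw [k1, k2]
  have h1 := hG.2 _ hsup
  have h2 := Finset.card_erase_lt_of_mem hx
  omega

/-- transport of supports -/
lemma sup_image (S : Setup D X) {B : Finset ℚ} {y : ℕ} (hB : Sup X (B : Set ℚ) y) {u : ℚ → ℚ}
    (hu : StrictMono u) : Sup X ((B.image u : Finset ℚ) : Set ℚ) (A X u y) := by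
  intro v v' hv hv' h
  rw [← S.A_comp hv hu, ← S.A_comp hv' hu]
  exact hB _ _ (hv.comp hu) (hv'.comp hu) fun b hb => h _ (by
    rw [Finset.coe_image]
    exact ⟨b, hb, rfl⟩)

/-- transport of minimal supports -/
lemma minSup_image (S : Setup D X) {G : Finset ℚ} {y : ℕ} (hG : MinSup X G y) {u : ℚ → ℚ}
    (hu : StrictMono u) : MinSup X (G.image u) (A X u y) := by
  refine ⟨S.sup_image hG.1 hu, fun G' hG' => ?_⟩
  obtain ⟨π, hπ, hπG⟩ := exists_inv hu G
  have h1 : A X π (A X u y) = y := by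
    rw [← S.A_comp hπ hu]
    have := hG.1 (π ∘ u) id (hπ.comp hu) strictMono_id fun g hg => hπG g hg
    rw [this, S.A_id]
  have h2 := S.sup_image hG' hπ
  rw [h1] at h2
  have h3 := hG.2 _ h2
  rw [Finset.card_image_of_injective _ hπ.injective] at h3
  rwa [Finset.card_image_of_injective _ hu.injective]

/-- minimal supports are unique. -/
lemma minSup_unique (S : Setup D X) {G G' : Finset ℚ} {y : ℕ} (hG : MinSup X G y)
    (hG' : MinSup X G' y) : G = G' :=
  Finset.Subset.antisymm (fun x hx => S.minSup_sub hG hG'.1 x hx)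
    (fun x hx => S.minSup_sub hG' hG.1 x hx)

/-- the value determines the embedding on the minimal support. -/
lemma eq_on_minSup (S : Setup D X) {G : Finset ℚ} {y : ℕ} (hG : MinSup X G y) {u v : ℚ → ℚ}
    (hu : StrictMono u) (hv : StrictMono v) (h : A X u y = A X v y) : ∀ g ∈ G, u g = v g := by
  classical
  have h1 := S.minSup_image hG hu
  have h2 := S.minSup_image hG hv
  rw [h] at h1
  exact eq_of_image_eq hu hv (S.minSup_unique h1 h2)

/-- the action of an embedding is injective. -/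
lemma A_injective (S : Setup D X) {u : ℚ → ℚ} (hu : StrictMono u) {y z : ℕ}
    (h : A X u y = A X u z) : y = z := by
  classical
  obtain ⟨G, hG⟩ := S.exists_sup y
  obtain ⟨H, hH⟩ := S.exists_sup z
  obtain ⟨π, hπ, hπG⟩ := exists_inv hu (G ∪ H)
  have h1 : A X (π ∘ u) y = y := by
    rw [hG (π ∘ u) id (hπ.comp hu) strictMono_id fun g hg =>
      hπG g (Finset.mem_union_left _ hg), S.A_id]
  have h2 : A X (π ∘ u) z = z := by
    rw [hH (π ∘ u) id (hπ.comp hu) strictMono_id fun g hg =>
      hπG g (Finset.mem_union_right _ hg), S.A_id]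
  rw [← h1, ← h2, S.A_comp hπ hu, S.A_comp hπ hu, h]

end Setup

end Pool.Agent.R603.AQ
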