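import Mathlib
import Pool.Agent.R603.AQ.Supp

set_option autoImplicit false
set_option linter.unusedVariables false

open Filter

namespace Pool.Agent.R603.AQ

variable {n : ℕ}

/-- all coordinates are in `F` -/
def inF (F : Finset ℚ) (t : Fin (n + 1) → ℚ) : Prop := ∀ j, t j ∈ F

/-- the lower set generated by the values at the points far below `t` (as seen by `F`). -/
def lowG (F : Finset ℚ) (f : Op ℚ n) (t : Fin (n + 1) → ℚ) : LowerSet ℚ :=
  ⟨{z | ∃ s : Fin (n + 1) → ℚ, (∀ j, ∀ g ∈ F, t j ≤ g → s j < g) ∧ z ≤ f s},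
   fun a b hab ⟨s, hs, h⟩ => ⟨s, hs, hab.trans h⟩⟩

open Classical in
/-- the cut of `t` -/
noncomputable def cc (F : Finset ℚ) (f : Op ℚ n) (t : Fin (n + 1) → ℚ) : LowerSet ℚ :=
  if inF F t then LowerSet.Iic (f t) else lowG F f t

open Classical in
/-- the flag of `t` -/
noncomputable def fl (F : Finset ℚ) (t : Fin (n + 1) → ℚ) : ℕ := if inF F t then 0 else 1

open Classical in
/-- the tie breaker of `t` -/
noncomputable def tb (F : Finset ℚ) (t : Fin (n + 1) → ℚ) : ℚ := if inF F t then 0 else t 0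

/-- the position of `t` -/
noncomputable def kk (F : Finset ℚ) (f : Op ℚ n) (t : Fin (n + 1) → ℚ) : Wt ℚ :=
  mk (cc F f t) (fl F t) (tb F t)

lemma cc_pos {F : Finset ℚ} {f : Op ℚ n} {t : Fin (n + 1) → ℚ} (h : inF F t) :
    cc F f t = LowerSet.Iic (f t) := if_pos h

lemma cc_neg {F : Finset ℚ} {f : Op ℚ n} {t : Fin (n + 1) → ℚ} (h : ¬ inF F t) :
    cc F f t = lowG F f t := if_neg h

lemma kk_pos {F : Finset ℚ} {f : Op ℚ n} {t : Fin (n + 1) → ℚ} (h : inF F t) :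
    kk F f t = mk (LowerSet.Iic (f t)) 0 0 := by
  unfold kk cc fl tb
  rw [if_pos h, if_pos h, if_pos h]

lemma kk_neg {F : Finset ℚ} {f : Op ℚ n} {t : Fin (n + 1) → ℚ} (h : ¬ inF F t) :
    kk F f t = mk (lowG F f t) 1 (t 0) := by
  unfold kk cc fl tb
  rw [if_neg h, if_neg h, if_neg h]

lemma kk_mono {F : Finset ℚ} {f : Op ℚ n} (hf : IsPol f) {t t' : Fin (n + 1) → ℚ}
    (h : ∀ j, t j < t' j) : kk F f t < kk F f t' := by
  by_cases h1 : inF F t <;> by_cases h2 : inF F t'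
  · rw [kk_pos h1, kk_pos h2]
    exact incl_strictMono (hf _ _ h)
  · rw [kk_pos h1, kk_neg h2]
    refine mk_lt_flag (Iic_le ?_) (by norm_num) _ _
    exact ⟨t, fun j g _ hg => lt_of_lt_of_le (h j) hg, le_refl _⟩
  · rw [kk_neg h1, kk_pos h2]
    refine mk_lt_of_lt (lt_Iic ?_) _ _ _ _
    rintro x ⟨s, hs, hx⟩
    exact lt_of_le_of_lt hx (hf _ _ fun j => hs j _ (h2 j) (h j).le)
  · rw [kk_neg h1, kk_neg h2]
    refine mk_lt_q ?_ 1 (h 0)
    rintro x ⟨s, hs, hx⟩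
    exact ⟨s, fun j g hg hj => hs j g hg ((h j).le.trans hj), hx⟩

/-- the type of `t` -/
noncomputable def ty (F : Finset ℚ) (t : Fin (n + 1) → ℚ) : Fin (n + 1) → Finset ℚ × Bool := by
  classical
  exact fun j => (F.filter fun g => t j ≤ g, decide (t j ∈ F))

lemma ty_mem {F : Finset ℚ} {t t' : Fin (n + 1) → ℚ} (h : ty F t = ty F t') (j : Fin (n + 1)) :
    (∀ g ∈ F, t j ≤ g ↔ t' j ≤ g) ∧ (t j ∈ F ↔ t' j ∈ F) := by
  classical
  have h1 := congrFun h j
  unfold ty at h1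
  have h2 := (Prod.mk.inj h1).1
  have h3 := (Prod.mk.inj h1).2
  refine ⟨fun g hg => ?_, by simpa using h3⟩
  have h4 : g ∈ F.filter (fun g => t j ≤ g) ↔ g ∈ F.filter (fun g => t' j ≤ g) := by rw [h2]
  rw [Finset.mem_filter, Finset.mem_filter] at h4
  exact ⟨fun h => (h4.1 ⟨hg, h⟩).2, fun h => (h4.2 ⟨hg, h⟩).2⟩

lemma cc_ty {F : Finset ℚ} (f : Op ℚ n) {t t' : Fin (n + 1) → ℚ} (h : ty F t = ty F t') :
    cc F f t = cc F f t' := by
  by_cases h1 : inF F t
  · have h2 : inF F t' := fun j => (ty_mem h j).2.1 (h1 j)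
    have h3 : t = t' := by
      funext j
      exact le_antisymm (((ty_mem h j).1 _ (h2 j)).2 le_rfl) (((ty_mem h j).1 _ (h1 j)).1 le_rfl)
    rw [h3]
  · have h2 : ¬ inF F t' := fun h2 => h1 fun j => (ty_mem h j).2.2 (h2 j)
    rw [cc_neg h1, cc_neg h2]
    ext z
    constructor
    · rintro ⟨s, hs, hz⟩
      exact ⟨s, fun j g hg hj => hs j g hg (((ty_mem h j).1 g hg).2 hj), hz⟩
    · rintro ⟨s, hs, hz⟩
      exact ⟨s, fun j g hg hj => hs j g hg (((ty_mem h j).1 g hg).1 hj), hz⟩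

/-- along an ultrafilter a function with values in a finite type is eventually constant. -/
lemma eventually_const_finite {ι K : Type*} [Finite K] (W : Ultrafilter ι) (F : ι → K) :
    ∃ b, ∀ᶠ i in (W : Filter ι), F i = b := by
  by_contra hcon
  push Not at hcon
  have h1 : ∀ b, ∀ᶠ i in (W : Filter ι), F i ≠ b := fun b => hcon b
  obtain ⟨i, hi⟩ := (Filter.eventually_all.2 h1).exists
  exact hi _ rfl

/-- the pattern is eventually constant. -/
lemma exists_pattern {ι : Type*} (W : Ultrafilter ι) (F : Finset ℚ) (f : ι → Op ℚ n) :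
    ∃ i₀, ∀ᶠ i in (W : Filter ι), ∀ t t', (cc F (f i) t < cc F (f i) t' ↔
      cc F (f i₀) t < cc F (f i₀) t') := by
  classical
  let TY := {τ : Fin (n + 1) → Finset ℚ × Bool // ∃ t : Fin (n + 1) → ℚ, ty F t = τ}
  have hfin : Finite TY := by
    have h1 : {τ : Fin (n + 1) → Finset ℚ × Bool | ∀ j, τ j ∈
        ((F.powerset : Finset (Finset ℚ)) : Set (Finset ℚ)) ×ˢ (Set.univ : Set Bool)}.Finite :=
      Set.Finite.pi' fun _ => (Finset.finite_toSet _).prod Set.finite_univ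
    refine (h1.subset ?_).to_subtype
    rintro τ ⟨t, rfl⟩ j
    refine ⟨?_, trivial⟩
    rw [Finset.mem_coe, Finset.mem_powerset]
    exact Finset.filter_subset _ _
  let pat : ι → TY → TY → Prop := fun i τ τ' =>
    cc F (f i) (Classical.choose τ.2) < cc F (f i) (Classical.choose τ'.2)
  obtain ⟨b, hb⟩ := eventually_const_finite W pat
  obtain ⟨i₀, hi₀⟩ := hb.exists
  refine ⟨i₀, hb.mono fun i hi t t' => ?_⟩
  have h1 : ∀ (i : ι) (t t' : Fin (n + 1) → ℚ), (cc F (f i) t < cc F (f i) t' ↔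
      pat i ⟨ty F t, t, rfl⟩ ⟨ty F t', t', rfl⟩) := by
    intro i t t'
    have h2 : ∀ t : Fin (n + 1) → ℚ, cc F (f i) t =
        cc F (f i) (Classical.choose (⟨ty F t, t, rfl⟩ : TY).2) := fun t =>
      cc_ty _ (Classical.choose_spec (⟨ty F t, t, rfl⟩ : TY).2).symm
    show _ ↔ cc F (f i) _ < cc F (f i) _
    rw [← h2 t, ← h2 t']
  rw [h1, h1, hi, hi₀]

lemma kk_lt_iff {F : Finset ℚ} {f f' : Op ℚ n}
    (h : ∀ t t', (cc F f t < cc F f t' ↔ cc F f' t < cc F f' t')) (t t' : Fin (n + 1) → ℚ) :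
    kk F f t < kk F f t' ↔ kk F f' t < kk F f' t' := by
  have heq : cc F f t = cc F f t' ↔ cc F f' t = cc F f' t' := by
    have h1 := h t t'
    have h2 := h t' t
    constructor
    · intro h3
      refine le_antisymm (not_lt.1 fun h4 => ?_) (not_lt.1 fun h4 => ?_)
      · have := h2.2 h4
        rw [h3] at this
        exact lt_irrefl _ this
      · have := h1.2 h4
        rw [h3] at this
        exact lt_irrefl _ this
    · intro h3
      refine le_antisymm (not_lt.1 fun h4 => ?_) (not_lt.1 fun h4 => ?_)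
      · have := h2.1 h4
        rw [h3] at this
        exact lt_irrefl _ this
      · have := h1.1 h4
        rw [h3] at this
        exact lt_irrefl _ this
  unfold kk
  rw [mk_lt_iff, mk_lt_iff, h, heq]

/-- the glueing lemma. -/
theorem glue_lemma {F : Finset ℚ} {β₁ β₂ : ℚ → ℚ} (hβ₁ : StrictMono β₁) (hβ₂ : StrictMono β₂)
    (h1 : ∀ f ∈ F, β₁ f = f) (h2 : ∀ f ∈ F, β₂ f = f)
    (hQ : ∀ x x', (¬ ∃ f ∈ F, x' ≤ f ∧ f ≤ x) → β₁ x < β₂ x')
    {f P : Op ℚ n} (hf : IsPol f)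
    (hP : ∀ t t', P t < P t' ↔ kk F f t < kk F f t') :
    ∃ (Φ : Op ℚ n) (lam a : ℚ → ℚ), IsPol Φ ∧ StrictMono lam ∧ StrictMono a ∧
      (∀ t, Φ (fun j => β₁ (t j)) = lam (f t)) ∧ (∀ t, Φ (fun j => β₂ (t j)) = a (P t)) ∧
      (∀ t t', lam (f t) = a (P t') → inF F t') ∧ (∀ t, inF F t → lam (f t) = f t) := by
  classical
  -- facts about the two embeddings
  have q1 : ∀ x x', β₁ x < β₂ x' → ∀ g ∈ F, x' ≤ g → x < g := by
    intro x x' h g hg hx
    have h3 : β₁ x < β₁ g := by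
      rw [h1 g hg, ← h2 g hg]
      exact lt_of_lt_of_le h (hβ₂.monotone hx)
    exact hβ₁.lt_iff_lt.1 h3
  have q2 : ∀ x x', β₂ x' < β₁ x → x' < x ∧ ∃ g ∈ F, x' ≤ g ∧ g ≤ x := by
    intro x x' h
    have h3 : ∃ g ∈ F, x' ≤ g ∧ g ≤ x := by
      by_contra hcon
      exact absurd (hQ x x' hcon) (not_lt.2 h.le)
    refine ⟨?_, h3⟩
    obtain ⟨g, hg, h4, h5⟩ := h3
    refine lt_of_le_of_ne (h4.trans h5) ?_
    rintro rfl
    have h6 : x' = g := le_antisymm h4 h5
    subst h6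
    rw [h1 _ hg, h2 _ hg] at h
    exact lt_irrefl _ h
  have q3 : ∀ x x', β₁ x = β₂ x' → x = x' ∧ x ∈ F := by
    intro x x' h
    obtain ⟨g, hg, h4, h5⟩ : ∃ g ∈ F, x' ≤ g ∧ g ≤ x := by
      by_contra hcon
      exact absurd (hQ x x' hcon) (not_lt.2 h.ge)
    have h6 : β₂ x' ≤ β₂ g := hβ₂.monotone h4
    have h7 : β₁ g ≤ β₁ x := hβ₁.monotone h5
    rw [h2 g hg] at h6
    rw [h1 g hg] at h7
    have h8 : β₂ x' = g := le_antisymm h6 (h7.trans h.le)
    have h9 : β₁ x = g := h.trans h8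
    have h10 : x' = g := hβ₂.injective (h8.trans (h2 g hg).symm)
    have h11 : x = g := hβ₁.injective (h9.trans (h1 g hg).symm)
    exact ⟨h11.trans h10.symm, h11 ▸ hg⟩
  have hPle : ∀ t t', P t ≤ P t' ↔ kk F f t ≤ kk F f t' := fun t t' => by
    rw [← not_lt, ← not_lt, hP]
  have hPeq : ∀ t t', P t = P t' → kk F f t = kk F f t' := fun t t' h =>
    le_antisymm ((hPle _ _).1 h.le) ((hPle _ _).1 h.ge)
  have hkcc : ∀ t t', kk F f t ≤ kk F f t' → cc F f t ≤ cc F f t' := by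
    intro t t' h
    by_contra hcon
    exact absurd (mk_lt_of_lt (not_le.1 hcon) (fl F t') (fl F t) (tb F t') (tb F t)) (not_lt.2 h)
  have hkF : ∀ t t', kk F f t = kk F f t' → inF F t → inF F t' := by
    intro t t' h h3
    by_contra h4
    rw [kk_pos h3, kk_neg h4] at h
    exact absurd (mk_inj h).2.1 (by norm_num)
  -- the extension of `kk` to all rationals
  let κ : ℚ → LowerSet ℚ := fun z' =>
    ⟨{z | ∃ t, P t ≤ z' ∧ z ∈ cc F f t}, fun x y hxy ⟨t, ht, hz⟩ => ⟨t, ht, (cc F f t).lower hxy hz⟩⟩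
  have hκ : ∀ t, κ (P t) = cc F f t := by
    intro t
    ext z
    constructor
    · rintro ⟨t', ht', hz⟩
      exact hkcc _ _ ((hPle _ _).1 ht') hz
    · intro hz
      exact ⟨t, le_refl _, hz⟩
  have hκm : ∀ z z', z ≤ z' → κ z ≤ κ z' := fun z z' h x ⟨t, ht, hx⟩ => ⟨t, ht.trans h, hx⟩
  let sp : ℚ → Prop := fun z => ∃ t, inF F t ∧ P t = z
  have hsp : ∀ t, sp (P t) ↔ inF F t := fun t =>
    ⟨fun ⟨t', h3, h4⟩ => hkF _ _ (hPeq _ _ h4) h3, fun h => ⟨t, h, rfl⟩⟩
  let a0 : ℚ → Wt ℚ := fun z => if sp z then mk (κ z) 0 0 else mk (κ z) 1 z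
  have ha0pos : ∀ t, inF F t → a0 (P t) = incl (f t) := by
    intro t ht
    show (if sp (P t) then mk (κ (P t)) 0 0 else mk (κ (P t)) 1 (P t)) = _
    rw [if_pos ((hsp t).2 ht), hκ, cc_pos ht]
    rfl
  have ha0neg : ∀ t, ¬ inF F t → a0 (P t) = mk (lowG F f t) 1 (P t) := by
    intro t ht
    show (if sp (P t) then mk (κ (P t)) 0 0 else mk (κ (P t)) 1 (P t)) = _
    rw [if_neg (fun h => ht ((hsp t).1 h)), hκ, cc_neg ht]
  have ha0 : StrictMono a0 := by
    intro z z' hz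
    show (if sp z then mk (κ z) 0 0 else mk (κ z) 1 z) <
      (if sp z' then mk (κ z') 0 0 else mk (κ z') 1 z')
    have hlt : ∀ t', inF F t' → P t' = z' → κ z < κ z' := by
      intro t' ht' hP'
      rw [← hP', hκ, cc_pos ht']
      refine lt_Iic ?_
      rintro x ⟨t, ht, hx⟩
      have h3 : kk F f t < kk F f t' := (hP _ _).1 (lt_of_le_of_lt ht (hP' ▸ hz))
      rw [kk_pos ht'] at h3
      have h4 : cc F f t < LowerSet.Iic (f t') := by
        rcases mk_lt_iff.1 h3 with h4 | ⟨h4, h5⟩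
        · exact h4
        · exfalso
          by_cases h6 : inF F t
          · unfold fl tb at h5
            rw [if_pos h6, if_pos h6] at h5
            rcases h5 with h5 | h5
            · exact absurd h5 (by norm_num)
            · exact absurd h5.2 (lt_irrefl _)
          · unfold fl at h5
            rw [if_neg h6] at h5
            rcases h5 with h5 | h5
            · exact absurd h5 (by norm_num)
            · exact absurd h5.1 (by norm_num)
      have h5 : x ≤ f t' := h4.le hx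
      refine lt_of_le_of_ne h5 ?_
      rintro rfl
      exact absurd (Iic_le hx) (not_le.2 h4)
    by_cases h3 : sp z <;> by_cases h4 : sp z'
    · rw [if_pos h3, if_pos h4]
      obtain ⟨t', ht', hP'⟩ := h4
      exact mk_lt_of_lt (hlt t' ht' hP') _ _ _ _
    · rw [if_pos h3, if_neg h4]
      exact mk_lt_flag (hκm _ _ hz.le) (by norm_num) _ _
    · rw [if_neg h3, if_pos h4]
      obtain ⟨t', ht', hP'⟩ := h4
      exact mk_lt_of_lt (hlt t' ht' hP') _ _ _ _
    · rw [if_neg h3, if_neg h4]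
      exact mk_lt_q (hκm _ _ hz.le) 1 hz
  -- the function on the union of the two copies
  let b₁ : (Fin (n + 1) → ℚ) → (Fin (n + 1) → ℚ) := fun t j => β₁ (t j)
  let b₂ : (Fin (n + 1) → ℚ) → (Fin (n + 1) → ℚ) := fun t j => β₂ (t j)
  have hb₁ : Function.Injective b₁ := fun t t' h => funext fun j => hβ₁.injective (congrFun h j)
  have hb₂ : Function.Injective b₂ := fun t t' h => funext fun j => hβ₂.injective (congrFun h j)
  let φ : (Fin (n + 1) → ℚ) → Wt ℚ := fun x =>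
    if x ∈ Set.range b₁ then incl (f (Function.invFun b₁ x)) else a0 (P (Function.invFun b₂ x))
  have hφ₁ : ∀ t, φ (b₁ t) = incl (f t) := by
    intro t
    show (if b₁ t ∈ Set.range b₁ then incl (f (Function.invFun b₁ (b₁ t))) else _) = _
    rw [if_pos ⟨t, rfl⟩, Function.leftInverse_invFun hb₁]
  have hφ₂ : ∀ t, φ (b₂ t) = a0 (P t) := by
    intro t
    by_cases h3 : b₂ t ∈ Set.range b₁
    · obtain ⟨s, hs⟩ := h3
      have h4 : ∀ j, s j = t j ∧ s j ∈ F := fun j => q3 _ _ (congrFun hs j)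
      have h5 : s = t := funext fun j => (h4 j).1
      have h6 : inF F t := fun j => h5 ▸ (h4 j).2
      rw [← hs, hφ₁, h5, ha0pos t h6]
    · show (if b₂ t ∈ Set.range b₁ then _ else a0 (P (Function.invFun b₂ (b₂ t)))) = _
      rw [if_neg h3, Function.leftInverse_invFun hb₂]
  have hφm : ∀ x ∈ Set.range b₁ ∪ Set.range b₂, ∀ y ∈ Set.range b₁ ∪ Set.range b₂,
      (∀ j, x j < y j) → φ x < φ y := by
    rintro x (⟨t, rfl⟩ | ⟨t, rfl⟩) y (⟨t', rfl⟩ | ⟨t', rfl⟩) h
    · rw [hφ₁, hφ₁]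
      exact incl_strictMono (hf _ _ fun j => hβ₁.lt_iff_lt.1 (h j))
    · rw [hφ₁, hφ₂]
      by_cases h3 : inF F t'
      · rw [ha0pos t' h3]
        exact incl_strictMono (hf _ _ fun j => q1 _ _ (h j) _ (h3 j) le_rfl)
      · rw [ha0neg t' h3]
        refine mk_lt_flag (Iic_le ?_) (by norm_num) _ _
        exact ⟨t, fun j g hg hj => q1 _ _ (h j) g hg hj, le_refl _⟩
    · rw [hφ₂, hφ₁]
      by_cases h3 : inF F t
      · rw [ha0pos t h3]
        exact incl_strictMono (hf _ _ fun j => (q2 _ _ (h j)).1)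
      · rw [ha0neg t h3]
        refine mk_lt_of_lt (lt_Iic ?_) _ _ _ _
        rintro z ⟨s, hs, hz⟩
        refine lt_of_le_of_lt hz (hf _ _ fun j => ?_)
        obtain ⟨g, hg, h4, h5⟩ := (q2 _ _ (h j)).2
        exact lt_of_lt_of_le (hs j g hg h4) h5
    · rw [hφ₂, hφ₂]
      exact ha0 ((hP _ _).2 (kk_mono hf fun j => hβ₂.lt_iff_lt.1 (h j)))
  obtain ⟨Φ₀, hΦ₀, hΦ₀e⟩ := extend (L := Wt ℚ) (fun x y : Fin (n + 1) → ℚ => ∀ j, x j < y j)
    (fun x y z h3 h4 j => (h3 j).trans (h4 j)) (fun x => x 0) (fun x y h => h 0) _ φ hφm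
  obtain ⟨ε, hε⟩ := emb_countable (R := Set.range Φ₀ ∪ (Set.range (fun q : ℚ => incl (incl q)) ∪
    Set.range (fun q : ℚ => incl (a0 q)))) ((Set.countable_range _).union
      ((Set.countable_range _).union (Set.countable_range _)))
  have hlam : StrictMono (fun q : ℚ => ε (incl (incl q))) := fun x y h =>
    hε _ (Or.inr (Or.inl ⟨x, rfl⟩)) _ (Or.inr (Or.inl ⟨y, rfl⟩))
      (incl_strictMono (incl_strictMono h))
  have haa : StrictMono (fun q : ℚ => ε (incl (a0 q))) := fun x y h =>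
    hε _ (Or.inr (Or.inr ⟨x, rfl⟩)) _ (Or.inr (Or.inr ⟨y, rfl⟩)) (incl_strictMono (ha0 h))
  have hFN : {t : Fin (n + 1) → ℚ | inF F t}.Finite := by
    have := Set.Finite.pi' (ι := Fin (n + 1)) (t := fun _ => (F : Set ℚ))
      (fun _ => Finset.finite_toSet _)
    exact this
  obtain ⟨π, hπ, hπf⟩ := Setup.exists_inv hlam (hFN.toFinset.image f)
  refine ⟨fun x => π (ε (Φ₀ x)), fun q => π (ε (incl (incl q))), fun q => π (ε (incl (a0 q))),
    fun x y h => ?_, hπ.comp hlam, hπ.comp haa, fun t => ?_, fun t => ?_, fun t t' h => ?_,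
    fun t ht => ?_⟩
  · exact hπ (hε _ (Or.inl ⟨x, rfl⟩) _ (Or.inl ⟨y, rfl⟩) (hΦ₀ x y h))
  · show π (ε (Φ₀ (b₁ t))) = _
    rw [hΦ₀e _ (Or.inl ⟨t, rfl⟩), hφ₁]
  · show π (ε (Φ₀ (b₂ t))) = _
    rw [hΦ₀e _ (Or.inr ⟨t, rfl⟩), hφ₂]
  · have h3 := hπ.injective h
    have h4 : incl (f t) = a0 (P t') := by
      by_contra hne
      rcases lt_or_gt_of_ne hne with h5 | h5
      · exact absurd h3 (hε _ (Or.inr (Or.inl ⟨f t, rfl⟩)) _ (Or.inr (Or.inr ⟨P t', rfl⟩))
          (incl_strictMono h5)).ne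
      · exact absurd h3 (hε _ (Or.inr (Or.inr ⟨P t', rfl⟩)) _ (Or.inr (Or.inl ⟨f t, rfl⟩))
          (incl_strictMono h5)).ne'
    by_contra h5
    rw [ha0neg t' h5] at h4
    exact absurd (mk_inj h4).2.1 (by norm_num)
  · exact hπf (f t) (Finset.mem_image_of_mem _ (hFN.mem_toFinset.2 ht))

end Pool.Agent.R603.AQ
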