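import Mathlib
import Pool.Agent.R603.AQ.Glue

set_option autoImplicit false
set_option linter.unusedVariables false

open Filter

namespace Pool.Agent.R603.AQ

lemma finite_inF (n : ℕ) (F : Finset ℚ) : {t : Fin (n + 1) → ℚ | inF F t}.Finite := by
  have := Set.Finite.pi' (ι := Fin (n + 1)) (t := fun _ => (F : Set ℚ))
    (fun _ => Finset.finite_toSet _)
  exact this

/-- limits of polymorphisms are polymorphisms. -/
lemma isPol_limit {n : ℕ} {ι : Type*} (W : Ultrafilter ι) {f : ι → Op ℚ n}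
    (hf : ∀ i, IsPol (f i)) {g : Op ℚ n} (hlim : ∀ t, ∀ᶠ i in (W : Filter ι), f i t = g t) :
    IsPol g := by
  intro a b hab
  obtain ⟨i, h1, h2⟩ := ((hlim a).and (hlim b)).exists
  rw [← h1, ← h2]
  exact hf i _ _ hab

namespace Setup

variable {D : ∀ n, Set (Op ℕ n)} {X : ∀ n, Op ℚ n → Op ℕ n}

/-- values are supported by ranges. -/
lemma sup_range (S : Setup D X) {n : ℕ} {f : Op ℚ n} (hf : IsPol f) (y : Fin (n + 1) → ℕ) :
    Sup X (Set.range f) (X n f y) := by
  intro v v' hv hv' h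
  rw [← S.X_post hf hv, ← S.X_post hf hv']
  have : (fun t => v (f t)) = fun t => v' (f t) := funext fun t => h _ ⟨t, rfl⟩
  rw [this]

/-- boundedness. -/
theorem bounded (S : Setup D X) {n : ℕ} {ι : Type*} (W : Ultrafilter ι) (f : ι → Op ℚ n)
    (hf : ∀ i, IsPol (f i)) (g : Op ℚ n) (hlim : ∀ t, ∀ᶠ i in (W : Filter ι), f i t = g t)
    (y : Fin (n + 1) → ℕ) : ∃ z, ∀ᶠ i in (W : Filter ι), X n (f i) y = z := by
  classical
  choose B hB using fun j => S.exists_sup (y j)
  obtain ⟨F, β₁, β₂, hF, hβ₁, hβ₂, h1, h2, hQ⟩ := exists_beta (Finset.univ.biUnion B)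
  have hfix : ∀ β : ℚ → ℚ, StrictMono β → (∀ g ∈ F, β g = g) → ∀ j, A X β (y j) = y j := by
    intro β hβ h j
    rw [hB j β id hβ strictMono_id fun g hg =>
      h g (hF (Finset.mem_biUnion.2 ⟨j, Finset.mem_univ _, hg⟩)), S.A_id]
  obtain ⟨i₀, hi₀⟩ := exists_pattern W F f
  obtain ⟨ε, hε⟩ := emb_countable (R := Set.range (kk F (f i₀))) (Set.countable_range _)
  let P : Op ℚ n := fun t => ε (kk F (f i₀) t)
  have hPlt : ∀ t t', P t < P t' ↔ kk F (f i₀) t < kk F (f i₀) t' := by
    intro t t'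
    refine ⟨fun h => ?_, fun h => hε _ ⟨t, rfl⟩ _ ⟨t', rfl⟩ h⟩
    by_contra hcon
    rcases lt_or_eq_of_le (not_lt.1 hcon) with h3 | h3
    · exact absurd (hε _ ⟨t', rfl⟩ _ ⟨t, rfl⟩ h3) (not_lt.2 h.le)
    · have : P t' = P t := congrArg ε h3
      exact absurd this h.ne'
  have hPpol : IsPol P := fun t t' h => (hPlt _ _).2 (kk_mono (hf i₀) h)
  let w : ℕ := X n P y
  obtain ⟨V, hV⟩ := S.exists_minSup w
  let N : Finset ℚ := (finite_inF n F).toFinset.image g
  let good : ι → Prop := fun i => (∀ t t', (cc F (f i) t < cc F (f i) t' ↔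
    cc F (f i₀) t < cc F (f i₀) t')) ∧ ∀ t ∈ (finite_inF n F).toFinset, f i t = g t
  have key : ∀ i, good i → ∃ a : ℚ → ℚ, StrictMono a ∧ X n (f i) y = A X a w ∧
      V.image a ∈ N.powerset := by
    rintro i ⟨hpat, hval⟩
    have hP : ∀ t t', P t < P t' ↔ kk F (f i) t < kk F (f i) t' := fun t t' => by
      rw [hPlt, kk_lt_iff hpat]
    obtain ⟨Φ, lam, a, hΦ, hlam, ha, e1, e2, e3, e4⟩ := glue_lemma hβ₁ hβ₂ h1 h2 hQ (hf i) hP
    have k1 : X n Φ y = A X lam (X n (f i) y) := by
      have h3 := S.X_subst hΦ (v := fun _ => β₁) (fun _ => hβ₁) y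
      have h4 : (fun j => A X β₁ (y j)) = y := funext (hfix β₁ hβ₁ h1)
      rw [h4] at h3
      rw [← h3, ← S.X_post (hf i) hlam]
      have h5 : (fun t : Fin (n + 1) → ℚ => Φ (fun j => β₁ (t j))) = fun t => lam (f i t) :=
        funext e1
      rw [h5]
    have k2 : X n Φ y = A X a w := by
      have h3 := S.X_subst hΦ (v := fun _ => β₂) (fun _ => hβ₂) y
      have h4 : (fun j => A X β₂ (y j)) = y := funext (hfix β₂ hβ₂ h2)
      rw [h4] at h3
      rw [← h3, ← S.X_post hPpol ha]
      have h5 : (fun t : Fin (n + 1) → ℚ => Φ (fun j => β₂ (t j))) = fun t => a (P t) :=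
        funext e2
      rw [h5]
    have k3 : A X lam (X n (f i) y) = A X a w := k1.symm.trans k2
    obtain ⟨M, hM⟩ := S.exists_minSup (X n (f i) y)
    have k4 : M.image lam = V.image a := by
      have h3 := S.minSup_image hM hlam
      have h4 := S.minSup_image hV ha
      rw [k3] at h3
      exact S.minSup_unique h3 h4
    have k5 : ∀ m ∈ M, ∃ t, inF F t ∧ f i t = m := by
      intro m hm
      obtain ⟨t, ht⟩ := S.minSup_sub hM (S.sup_range (hf i) y) m hm
      have h3 : lam m ∈ V.image a := k4 ▸ Finset.mem_image_of_mem _ hm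
      obtain ⟨v, hv, hva⟩ := Finset.mem_image.1 h3
      obtain ⟨t', ht'⟩ := S.minSup_sub hV (S.sup_range hPpol y) v hv
      have h5 : inF F t' := e3 t t' (by rw [ht, ht', hva])
      refine ⟨t', h5, hlam.injective ?_⟩
      rw [← e1, ← hva, ← ht', ← e2]
      congr 1
      funext j
      rw [h1 _ (h5 j), h2 _ (h5 j)]
    have k6 : ∀ m ∈ M, lam m = m := by
      intro m hm
      obtain ⟨t, ht, rfl⟩ := k5 m hm
      exact e4 t ht
    have k7 : A X lam (X n (f i) y) = X n (f i) y := by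
      rw [hM.1 lam id hlam strictMono_id k6, S.A_id]
    refine ⟨a, ha, k7.symm.trans k3, ?_⟩
    rw [Finset.mem_powerset, ← k4]
    intro x hx
    obtain ⟨m, hm, rfl⟩ := Finset.mem_image.1 hx
    rw [k6 m hm]
    obtain ⟨t, ht, rfl⟩ := k5 m hm
    rw [hval t ((finite_inF n F).mem_toFinset.2 ht)]
    exact Finset.mem_image_of_mem _ ((finite_inF n F).mem_toFinset.2 ht)
  have hgood : ∀ᶠ i in (W : Filter ι), good i := by
    refine hi₀.and ?_
    rw [Filter.eventually_all_finset]
    exact fun t _ => hlim t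
  choose! a ha1 ha2 ha3 using key
  let T : ι → ↥N.powerset := fun i => if h : V.image (a i) ∈ N.powerset then ⟨_, h⟩ else
    ⟨∅, Finset.empty_mem_powerset _⟩
  obtain ⟨b, hb⟩ := eventually_const_finite W T
  obtain ⟨i₁, hi₁g, hi₁b⟩ := (hgood.and hb).exists
  have hT : ∀ i, good i → (T i : Finset ℚ) = V.image (a i) := by
    intro i hi
    show ((if h : V.image (a i) ∈ N.powerset then ⟨_, h⟩ else
      ⟨∅, Finset.empty_mem_powerset _⟩ : ↥N.powerset) : Finset ℚ) = V.image (a i)
    rw [dif_pos (ha3 i hi)]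
  refine ⟨X n (f i₁) y, (hgood.and hb).mono ?_⟩
  rintro i ⟨hig, hib⟩
  rw [ha2 i hig, ha2 i₁ hi₁g]
  refine hV.1 _ _ (ha1 i hig) (ha1 i₁ hi₁g) (eq_of_image_eq (ha1 i hig) (ha1 i₁ hi₁g) ?_)
  rw [← hT i hig, ← hT i₁ hi₁g, hib, hi₁b]

/-- the graph of the unary part is closed. -/
lemma graph_unary (S : Setup D X) {ι : Type*} (W : Ultrafilter ι) (u : ι → ℚ → ℚ)
    (hu : ∀ i, StrictMono (u i)) {f g : ℚ → ℚ} (hf : StrictMono f) (hg : StrictMono g)
    (h1 : ∀ x, ∀ᶠ i in (W : Filter ι), u i x = f x)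
    (h2 : ∀ y, ∀ᶠ i in (W : Filter ι), A X (u i) y = A X g y) : f = g := by
  refine S.A_inj hf hg fun y => ?_
  obtain ⟨B, hB⟩ := S.exists_sup y
  have h3 : ∀ᶠ i in (W : Filter ι), ∀ b ∈ B, u i b = f b := by
    rw [Filter.eventually_all_finset]
    exact fun b _ => h1 b
  obtain ⟨i, h4, h5⟩ := (h3.and (h2 y)).exists
  rw [← h5]
  exact (hB _ _ (hu i) hf h4).symm

lemma strictMono_add (c : ℚ) : StrictMono (fun a : ℚ => a + c) := fun a b h => by
  show a + c < b + c
  linarith

/-- the graph of the isomorphism is closed. -/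
lemma graph_all (S : Setup D X) {n : ℕ} {ι : Type*} (W : Ultrafilter ι) (F : ι → Op ℚ n)
    (hF : ∀ i, IsPol (F i)) {f g : Op ℚ n} (hf : IsPol f) (hg : IsPol g)
    (h1 : ∀ t, ∀ᶠ i in (W : Filter ι), F i t = f t)
    (h2 : ∀ y, ∀ᶠ i in (W : Filter ι), X n (F i) y = X n g y) : f = g := by
  funext t
  have hv : ∀ j : Fin (n + 1), StrictMono (fun a : ℚ => a + t j) := fun j => strictMono_add _
  have h3 := S.graph_unary W (fun i a => F i (fun j => a + t j))
    (fun i => strictMono_diag (hF i) hv) (f := fun a => f (fun j => a + t j))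
    (g := fun a => g (fun j => a + t j)) (strictMono_diag hf hv) (strictMono_diag hg hv)
    (fun x => h1 _) fun y => by
      refine (h2 (fun j => A X (fun a : ℚ => a + t j) y)).mono fun i hi => ?_
      have e1 := S.A_diag (hF i) hv y
      have e2 := S.A_diag hg hv y
      rw [e1, e2]
      exact hi
  have h4 := congrFun h3 0
  have h5 : (fun j => (0 : ℚ) + t j) = t := funext fun j => zero_add _
  rwa [h5] at h4

/-- every rational number is in the minimal support of some point. -/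
lemma exists_point (S : Setup D X) (x : ℚ) : ∃ (y : ℕ) (G : Finset ℚ), MinSup X G y ∧ x ∈ G := by
  by_contra hcon
  push Not at hcon
  let u : ℚ → ℚ → ℚ := fun c z => if z < x then z else if z = x then x + c else z + 2
  have hu : ∀ c, 0 ≤ c → c < 2 → StrictMono (u c) := by
    intro c hc hc2 a b hab
    show (if a < x then a else if a = x then x + c else a + 2) <
      (if b < x then b else if b = x then x + c else b + 2)
    rcases lt_trichotomy a x with ha | ha | ha
    · rw [if_pos ha]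
      rcases lt_trichotomy b x with hb | hb | hb
      · rw [if_pos hb]
        exact hab
      · rw [if_neg (by rw [hb]; exact lt_irrefl _), if_pos hb]
        linarith
      · rw [if_neg (not_lt.2 hb.le), if_neg hb.ne']
        linarith
    · rw [if_neg (by rw [ha]; exact lt_irrefl _), if_pos ha]
      have hb : x < b := ha ▸ hab
      rw [if_neg (not_lt.2 hb.le), if_neg hb.ne']
      linarith
    · rw [if_neg (not_lt.2 ha.le), if_neg ha.ne']
      have hb : x < b := ha.trans hab
      rw [if_neg (not_lt.2 hb.le), if_neg hb.ne']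
      linarith
  have h1 : u 0 = u 1 := by
    refine S.A_inj (hu 0 (by norm_num) (by norm_num)) (hu 1 (by norm_num) (by norm_num))
      fun y => ?_
    obtain ⟨G, hG⟩ := S.exists_minSup y
    refine hG.1 _ _ (hu 0 (by norm_num) (by norm_num)) (hu 1 (by norm_num) (by norm_num))
      fun g hg => ?_
    have hne : g ≠ x := by
      rintro rfl
      exact hcon y G hG hg
    show (if g < x then g else if g = x then x + 0 else g + 2) =
      (if g < x then g else if g = x then x + 1 else g + 2)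
    rw [if_neg hne, if_neg hne]
  have h2 := congrFun h1 x
  have h3 : (if x < x then x else if x = x then x + 0 else x + 2) =
    (if x < x then x else if x = x then x + 1 else x + 2) := h2
  rw [if_neg (lt_irrefl _), if_neg (lt_irrefl _), if_pos rfl, if_pos rfl] at h3
  linarith

/-- boundedness of the inverse. -/
lemma inv_bounded (S : Setup D X) {n : ℕ} {ι : Type*} (W : Ultrafilter ι) (F : ι → Op ℚ n)
    (hF : ∀ i, IsPol (F i)) (h : ∀ y, ∃ z, ∀ᶠ i in (W : Filter ι), X n (F i) y = z)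
    (t : Fin (n + 1) → ℚ) : ∃ b, ∀ᶠ i in (W : Filter ι), F i t = b := by
  obtain ⟨y, G, hG, h0⟩ := S.exists_point 0
  have hv : ∀ j : Fin (n + 1), StrictMono (fun a : ℚ => a + t j) := fun j => strictMono_add _
  obtain ⟨z, hz⟩ := h (fun j => A X (fun a : ℚ => a + t j) y)
  obtain ⟨i₁, hi₁⟩ := hz.exists
  have h5 : (fun j => (0 : ℚ) + t j) = t := funext fun j => zero_add _
  refine ⟨F i₁ t, hz.mono fun i hi => ?_⟩
  have e1 := S.A_diag (hF i) hv y
  have e2 := S.A_diag (hF i₁) hv y
  have h3 := S.eq_on_minSup hG (strictMono_diag (hF i) hv) (strictMono_diag (hF i₁) hv)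
    (by rw [e1, e2, hi, hi₁]) 0 h0
  rwa [h5] at h3

/-- the isomorphism respects limits along ultrafilters. -/
theorem limit_forward (S : Setup D X) {n : ℕ} {ι : Type*} (W : Ultrafilter ι) (F : ι → Op ℚ n)
    (hF : ∀ i, IsPol (F i)) {f : Op ℚ n} (hf : IsPol f)
    (hlim : ∀ t, ∀ᶠ i in (W : Filter ι), F i t = f t) (y : Fin (n + 1) → ℕ) :
    ∀ᶠ i in (W : Filter ι), X n (F i) y = X n f y := by
  choose z hz using S.bounded W F hF f hlim
  have hzD : (z : Op ℕ n) ∈ D n := by
    refine closed_approx (S.closedD n) z fun T => ?_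
    have h1 : ∀ᶠ i in (W : Filter ι), ∀ t ∈ T, X n (F i) t = z t := by
      rw [Filter.eventually_all_finset]
      exact fun t _ => hz t
    obtain ⟨i, hi⟩ := h1.exists
    exact ⟨X n (F i), S.mem n _ (hF i), hi⟩
  obtain ⟨g, hg, hgz⟩ := S.surj n z hzD
  have hfg : f = g := S.graph_all W F hF hf hg hlim fun y => (hz y).mono fun i hi => by
    rw [hi, hgz]
  rw [hfg, hgz]
  exact hz y

/-- the inverse respects limits along ultrafilters. -/
theorem limit_backward (S : Setup D X) {n : ℕ} {ι : Type*} (W : Ultrafilter ι) (F : ι → Op ℚ n)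
    (hF : ∀ i, IsPol (F i)) {f : Op ℚ n} (hf : IsPol f)
    (hlim : ∀ y, ∀ᶠ i in (W : Filter ι), X n (F i) y = X n f y) (t : Fin (n + 1) → ℚ) :
    ∀ᶠ i in (W : Filter ι), F i t = f t := by
  choose b hb using S.inv_bounded W F hF fun y => ⟨_, hlim y⟩
  have hbf : b = f := S.graph_all W F hF (isPol_limit W hF hb) hf hb hlim
  rw [← hbf]
  exact hb t

end Setup

end Pool.Agent.R603.AQ
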