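import Mathlib
import Pool.Agent.R603.AQ.Defs
import Pool.Agent.R603.AQ.Main

set_option autoImplicit false
set_option linter.unusedVariables false

open Filter Topology

namespace Pool.Agent.R603.AQ.Clones

/-- the isomorphism as a map on raw operations -/
noncomputable def toX {D : Clone ℕ} (ξ : CloneIso PolQ D) :
    ∀ n, Pool.Agent.R603.AQ.Op ℚ n → Pool.Agent.R603.AQ.Op ℕ n := by
  classical
  exact fun n f => if h : IsPol f then (ξ.map n ⟨f, h⟩ : Op ℕ n) else fun _ => 0

lemma toX_of_mem {D : Clone ℕ} (ξ : CloneIso PolQ D) {n : ℕ} {f : Pool.Agent.R603.AQ.Op ℚ n}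
    (h : IsPol f) : toX ξ n f = (ξ.map n ⟨f, h⟩ : Op ℕ n) := by
  classical
  unfold toX
  exact dif_pos h

theorem setup_of_iso {D : Clone ℕ} (hD : ∀ n, IsClosed (D.ops n)) (ξ : CloneIso PolQ D) :
    Setup D.ops (toX ξ) where
  closedD := hD
  mem := by
    intro n f hf
    rw [toX_of_mem ξ hf]
    exact (ξ.map n ⟨f, hf⟩).2
  inj := by
    intro n f g hf hg h
    rw [toX_of_mem ξ hf, toX_of_mem ξ hg] at h
    have := (ξ.bij n).1 (Subtype.ext h)
    exact congrArg Subtype.val this
  surj := by
    intro n g hg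
    obtain ⟨⟨f, hf⟩, hfg⟩ := (ξ.bij n).2 ⟨g, hg⟩
    refine ⟨f, hf, ?_⟩
    rw [toX_of_mem ξ hf]
    exact congrArg Subtype.val hfg
  proj := by
    intro n i
    rw [toX_of_mem ξ (f := fun x : Fin (n + 1) → ℚ => x i) (PolQ.proj_mem n i)]
    exact ξ.map_proj n i
  comp := by
    intro n m f g hf hg
    rw [toX_of_mem ξ (f := fun x => f (fun i => g i x)) (PolQ.comp_mem n m f g hf hg),
      toX_of_mem ξ hf]
    have h := ξ.map_comp n m ⟨f, hf⟩ (fun i => ⟨g i, hg i⟩)
    refine h.trans ?_
    funext x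
    have h2 : (fun i => (ξ.map m ⟨g i, hg i⟩ : Op ℕ m) x) = fun i => toX ξ m (g i) x :=
      funext fun i => by rw [toX_of_mem ξ (hg i)]
    exact congrArg (ξ.map n ⟨f, hf⟩ : Op ℕ n) h2

lemma ops_closed {D : Clone ℕ} (h : IsClosed D.toSet) (n : ℕ) : IsClosed (D.ops n) :=
  (isClosed_sigma_iff.1 h) n

/-- the pieces are homeomorphisms. -/
theorem pieces {D : Clone ℕ} (hD : ∀ n, IsClosed (D.ops n)) (ξ : CloneIso PolQ D)
    (n : ℕ) : IsHomeomorph (ξ.map n) := by
  have S := setup_of_iso hD ξ
  let e := Equiv.ofBijective (ξ.map n) (ξ.bij n)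
  have hcont : Continuous (ξ.map n) := by
    rw [continuous_iff_ultrafilter]
    intro x W hW
    rw [tendsto_subtype_rng, tendsto_pi_nhds]
    intro y
    rw [nhds_discrete, tendsto_pure]
    have h1 : ∀ t, ∀ᶠ i : PolQ.ops n in (W : Filter (PolQ.ops n)),
        (i : Op Q n) t = (x : Op Q n) t := by
      intro t
      have h2 : Tendsto (fun i : PolQ.ops n => (i : Op Q n) t) (W : Filter (PolQ.ops n))
          (𝓝 ((x : Op Q n) t)) :=
        (((continuous_apply t).comp continuous_subtype_val).tendsto x).mono_left hW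
      rwa [nhds_discrete, tendsto_pure] at h2
    have h3 := S.limit_forward W (fun i : PolQ.ops n => (i : Op Q n)) (fun i => i.2)
      (f := (x : Op Q n)) x.2 h1 y
    refine h3.mono fun i hi => ?_
    rw [toX_of_mem ξ (f := (i : Op Q n)) i.2, toX_of_mem ξ (f := (x : Op Q n)) x.2] at hi
    exact hi
  have hinv : Continuous e.symm := by
    rw [continuous_iff_ultrafilter]
    intro z W hW
    rw [tendsto_subtype_rng, tendsto_pi_nhds]
    intro t
    rw [nhds_discrete, tendsto_pure]
    have he : ∀ d : D.ops n, toX ξ n (e.symm d : Op Q n) = (d : Op ℕ n) := by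
      intro d
      rw [toX_of_mem ξ (f := (e.symm d : Op Q n)) (e.symm d).2]
      exact congrArg Subtype.val (e.apply_symm_apply d)
    have h1 : ∀ y, ∀ᶠ d : D.ops n in (W : Filter (D.ops n)),
        toX ξ n (e.symm d : Op Q n) y = toX ξ n (e.symm z : Op Q n) y := by
      intro y
      have h2 : Tendsto (fun i : D.ops n => (i : Op ℕ n) y) (W : Filter (D.ops n))
          (𝓝 ((z : Op ℕ n) y)) :=
        (((continuous_apply y).comp continuous_subtype_val).tendsto z).mono_left hW
      rw [nhds_discrete, tendsto_pure] at h2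
      refine h2.mono fun d hd => ?_
      rw [he, he, hd]
    exact S.limit_backward W (fun d : D.ops n => (e.symm d : Op Q n)) (fun d => (e.symm d).2)
      (f := (e.symm z : Op Q n)) (e.symm z).2 h1 t
  exact (Homeomorph.mk e hcont hinv).isHomeomorph

/-- the disjoint union of the pieces is the clone. -/
def glue {α : Type} (C : Clone α) : (Σ n, C.ops n) → C.toSet := fun p => ⟨⟨p.1, p.2.1⟩, p.2.2⟩

lemma glue_isHomeomorph {α : Type} [TopologicalSpace α] (C : Clone α) :
    IsHomeomorph (glue C) := by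
  rw [isHomeomorph_iff_isEmbedding_surjective]
  constructor
  · have h1 : IsEmbedding (Sigma.map id (fun n => (Subtype.val : C.ops n → Op α n))) :=
      (isEmbedding_sigmaMap Function.injective_id).2 fun n => IsEmbedding.subtypeVal
    have h2 : (Sigma.map id (fun n => (Subtype.val : C.ops n → Op α n))) =
        (Subtype.val : C.toSet → AllOps α) ∘ glue C := rfl
    rw [h2] at h1
    have hcont : Continuous (glue C) := by
      refine Continuous.subtype_mk ?_ _
      exact continuous_sigma fun n => continuous_sigmaMk.comp continuous_subtype_val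
    exact IsEmbedding.of_comp hcont continuous_subtype_val h1
  · rintro ⟨⟨n, f⟩, hf⟩
    exact ⟨⟨n, ⟨f, hf⟩⟩, rfl⟩

lemma polQ_closed : IsClosed PolQ.toSet := by
  rw [isClosed_sigma_iff]
  intro n
  have h1 : (Sigma.mk n ⁻¹' PolQ.toSet : Set (Op Q n)) =
      ⋂ (a : Fin (n + 1) → Q) (b : Fin (n + 1) → Q) (_ : ∀ i, a i < b i),
        {f : Op Q n | f a < f b} := by
    ext f
    simp only [Set.mem_iInter]
    exact Iff.rfl
  rw [h1]
  refine isClosed_iInter fun a => isClosed_iInter fun b => isClosed_iInter fun _ => ?_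
  have h2 : Continuous fun f : Op Q n => (f a, f b) :=
    (continuous_apply a).prodMk (continuous_apply b)
  exact (isClosed_discrete {p : Q × Q | p.1 < p.2}).preimage h2

/-- The polymorphism clone of `(ℚ; <)` has automatic homeomorphicity. -/
theorem automatic : AutomaticHomeomorphicity PolQ := by
  refine ⟨polQ_closed, fun D hD ξ => ?_⟩
  have hp := pieces (ops_closed hD) ξ
  have h1 : IsHomeomorph (Sigma.map id ξ.map : (Σ n, PolQ.ops n) → Σ n, D.ops n) :=
    IsHomeomorph.sigmaMap Function.bijective_id hp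
  have h2 : IsHomeomorph (glue D ∘ Sigma.map id ξ.map) := (glue_isHomeomorph D).comp h1
  let H := (glue_isHomeomorph PolQ).homeomorph
  have h3 : ξ.total = (glue D ∘ Sigma.map id ξ.map) ∘ H.symm := by
    funext p
    obtain ⟨q, rfl⟩ := H.surjective p
    rw [Function.comp_apply, H.symm_apply_apply]
    rfl
  rw [h3]
  exact h2.comp H.symm.isHomeomorph

end Pool.Agent.R603.AQ.Clones
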